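import Mathlib

/-!
# Colourings of U × W from bilinear maps over the field with two elements

`β : Φ → U → W` bilinear over `ZMod 2`. The colour of the pair `((u,w),(u',w'))` is `u + u'` together
with the class of `w + w'` modulo `β(Φ, u + u')`. If `β` is separated, then every colour preserving
map between parts of `U × W` extends to a colour preserving bijection.
-/

set_option autoImplicit false

namespace Pool.Agent.MPH

variable {Φ U W : Type*} [AddCommGroup Φ] [Module (ZMod 2) Φ] [AddCommGroup U] [Module (ZMod 2) U]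
  [AddCommGroup W] [Module (ZMod 2) W]

/-- Separated bilinear maps: `β φ u = β ψ v` only in the obvious cases. -/
structure Sep (β : Φ →ₗ[ZMod 2] U →ₗ[ZMod 2] W) : Prop where
  inj : ∀ φ u, u ≠ 0 → β φ u = 0 → φ = 0
  sep : ∀ φ ψ u v, u ≠ 0 → v ≠ 0 → u ≠ v → β φ u = β ψ v → φ = 0 ∧ ψ = 0

/-- The colour of a pair of points of `U × W`. -/
def col (β : Φ →ₗ[ZMod 2] U →ₗ[ZMod 2] W) (x y : U × W) : U × Set W :=
  (x.1 + y.1, {w | ∃ φ, w = x.2 + y.2 + β φ (x.1 + y.1)})

variable {β : Φ →ₗ[ZMod 2] U →ₗ[ZMod 2] W}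

theorem addself {G : Type*} [AddCommGroup G] [Module (ZMod 2) G] (x : G) : x + x = 0 :=
  ZModModule.add_self x

theorem add_cancel_two {G : Type*} [AddCommGroup G] [Module (ZMod 2) G] (x y : G) :
    x + (x + y) = y := by
  rw [← add_assoc, addself, zero_add]

theorem eq_of_add_eq_zero' {G : Type*} [AddCommGroup G] [Module (ZMod 2) G] {x y : G}
    (h : x + y = 0) : x = y := by
  have := congrArg (· + y) h
  simpa [add_assoc, addself] using this

theorem add_eq_iff {G : Type*} [AddCommGroup G] [Module (ZMod 2) G] {x y z : G} :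
    x + y = z ↔ y = x + z := by
  constructor
  · rintro rfl
    rw [add_cancel_two]
  · rintro rfl
    rw [add_cancel_two]

theorem col_eq_iff {x y x' y' : U × W} :
    col β x y = col β x' y' ↔
      x.1 + y.1 = x'.1 + y'.1 ∧ ∃ φ, x'.2 + y'.2 = x.2 + y.2 + β φ (x.1 + y.1) := by
  constructor
  · intro h
    have h1 : x.1 + y.1 = x'.1 + y'.1 := congrArg Prod.fst h
    have h2 : ({w | ∃ φ, w = x.2 + y.2 + β φ (x.1 + y.1)} : Set W) =
      {w | ∃ φ, w = x'.2 + y'.2 + β φ (x'.1 + y'.1)} := congrArg Prod.snd h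
    refine ⟨h1, ?_⟩
    have h3 : x'.2 + y'.2 ∈ ({w | ∃ φ, w = x'.2 + y'.2 + β φ (x'.1 + y'.1)} : Set W) :=
      ⟨0, by simp⟩
    rw [← h2] at h3
    exact h3
  · rintro ⟨h1, φ, h2⟩
    refine Prod.ext h1 ?_
    ext w
    simp only [col, Set.mem_ofPred_eq]
    constructor
    · rintro ⟨ψ, rfl⟩
      refine ⟨φ + ψ, ?_⟩
      rw [h2, ← h1, LinearMap.map_add₂]
      rw [add_assoc (x.2 + y.2), add_cancel_two]
    · rintro ⟨ψ, rfl⟩
      refine ⟨φ + ψ, ?_⟩
      rw [h2, ← h1, LinearMap.map_add₂]
      abel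

theorem col_comm (x y : U × W) : col β x y = col β y x := by
  rw [col_eq_iff]
  exact ⟨add_comm _ _, 0, by simp [add_comm]⟩

theorem col_self_iff {x y z : U × W} : col β x y = col β z z ↔ x = y := by
  rw [col_eq_iff]
  constructor
  · rintro ⟨h1, φ, h2⟩
    rw [addself] at h1 h2
    rw [h1, map_zero, add_zero] at h2
    exact Prod.ext (eq_of_add_eq_zero' h1) (eq_of_add_eq_zero' h2.symm)
  · rintro rfl
    exact ⟨by simp [addself], 0, by simp [addself]⟩

theorem col_translate (v x y : U × W) : col β (v + x) (v + y) = col β x y := by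
  rw [col_eq_iff]
  have h1 : (v + x).1 + (v + y).1 = x.1 + y.1 := by
    simp only [Prod.fst_add]
    rw [add_add_add_comm, addself, zero_add]
  have h2 : (v + x).2 + (v + y).2 = x.2 + y.2 := by
    simp only [Prod.snd_add]
    rw [add_add_add_comm, addself, zero_add]
  exact ⟨h1, 0, by rw [h2]; simp⟩

/-- The shear by `φ`. -/
def shear (β : Φ →ₗ[ZMod 2] U →ₗ[ZMod 2] W) (φ : Φ) : (U × W) ≃ (U × W) where
  toFun x := (x.1, x.2 + β φ x.1)
  invFun x := (x.1, x.2 + β φ x.1)
  left_inv x := by
    refine Prod.ext rfl ?_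
    simp only
    rw [add_assoc, addself, add_zero]
  right_inv x := by
    refine Prod.ext rfl ?_
    simp only
    rw [add_assoc, addself, add_zero]

theorem shear_add (φ : Φ) (x y : U × W) : shear β φ (x + y) = shear β φ x + shear β φ y := by
  refine Prod.ext rfl ?_
  simp only [shear, Equiv.coe_fn_mk, Prod.snd_add, Prod.fst_add, map_add]
  abel

theorem shear_zero (φ : Φ) : shear β φ 0 = 0 := by
  refine Prod.ext rfl ?_
  simp [shear]

theorem col_shear (φ : Φ) (x y : U × W) : col β (shear β φ x) (shear β φ y) = col β x y := by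
  rw [col_eq_iff]
  refine ⟨rfl, φ, ?_⟩
  simp only [shear, Equiv.coe_fn_mk, map_add]
  have h1 := addself (β φ x.1)
  have h2 := addself (β φ y.1)
  calc x.2 + y.2 = x.2 + y.2 + (β φ x.1 + β φ x.1) + (β φ y.1 + β φ y.1) := by
        rw [h1, h2, add_zero, add_zero]
    _ = _ := by abel

/-- Two families of points with the same pairwise colours, both containing `0` at the same place,
differ by a shear. -/
theorem exists_shear (hβ : Sep β) {ι : Type*} (A B : ι → U × W) (i₀ : ι) (hA : A i₀ = 0)
    (hB : B i₀ = 0) (h : ∀ i j, col β (A i) (A j) = col β (B i) (B j)) :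
    ∃ φ, ∀ i, B i = shear β φ (A i) := by
  -- the local shears
  have h0 : ∀ i, (A i).1 = (B i).1 ∧ ∃ φ, (B i).2 = (A i).2 + β φ (A i).1 := by
    intro i
    have := h i i₀
    rw [hA, hB, col_eq_iff] at this
    simpa using this
  choose h1 α hα using h0
  have key : ∀ i j, (A i).1 ≠ 0 → (A j).1 ≠ 0 → α i = α j := by
    intro i j hi hj
    have h2 := h i j
    rw [col_eq_iff] at h2
    obtain ⟨-, γ, h3⟩ := h2
    rw [hα i, hα j, map_add] at h3
    have h4 : β (α i) (A i).1 + β (α j) (A j).1 = β γ (A i).1 + β γ (A j).1 := by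
      have h5 : (A i).2 + (A j).2 + (β (α i) (A i).1 + β (α j) (A j).1) =
        (A i).2 + (A j).2 + (β γ (A i).1 + β γ (A j).1) := by
        rw [← h3]; abel
      exact add_left_cancel h5
    have h6 : β (α i + γ) (A i).1 = β (α j + γ) (A j).1 := by
      rw [map_add, map_add, LinearMap.add_apply, LinearMap.add_apply]
      have h7 : β (α i) (A i).1 + β (α j) (A j).1 + β (α j) (A j).1 + β γ (A i).1 =
          β γ (A i).1 + β γ (A j).1 + β (α j) (A j).1 + β γ (A i).1 := by rw [h4]
      have h8 : β (α i) (A i).1 + β (α j) (A j).1 + β (α j) (A j).1 + β γ (A i).1 =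
          β (α i) (A i).1 + β γ (A i).1 := by
        rw [add_assoc (β (α i) (A i).1), addself, add_zero]
      have h9 : β γ (A i).1 + β γ (A j).1 + β (α j) (A j).1 + β γ (A i).1 =
          β (α j) (A j).1 + β γ (A j).1 := by
        have : β γ (A i).1 + β γ (A j).1 + β (α j) (A j).1 + β γ (A i).1 =
          (β γ (A i).1 + β γ (A i).1) + (β (α j) (A j).1 + β γ (A j).1) := by abel
        rw [this, addself, zero_add]
      rw [← h8, ← h9]
      exact h7
    by_cases hij : (A i).1 = (A j).1
    · -- equal first coordinates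
      have h7 : β (α i + α j) (A i).1 = 0 := by
        have h8 : β (α i) (A i).1 + β (α j) (A i).1 = 0 := by
          rw [← hij] at h4
          rw [h4, addself]
        rw [map_add, LinearMap.add_apply, h8]
      exact eq_of_add_eq_zero' (hβ.inj _ _ hi h7)
    · obtain ⟨e1, e2⟩ := hβ.sep _ _ _ _ hi hj hij h6
      rw [eq_of_add_eq_zero' e1, eq_of_add_eq_zero' e2]
  by_cases hex : ∃ i, (A i).1 ≠ 0
  · obtain ⟨i, hi⟩ := hex
    refine ⟨α i, fun j => Prod.ext (h1 j).symm ?_⟩
    simp only [shear, Equiv.coe_fn_mk]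
    by_cases hj : (A j).1 = 0
    · rw [hα j, hj, map_zero, map_zero]
    · rw [hα j, key i j hi hj]
  · push Not at hex
    refine ⟨0, fun j => Prod.ext (h1 j).symm ?_⟩
    simp only [shear, Equiv.coe_fn_mk]
    rw [hα j, hex j, map_zero, map_zero]

/-- Colour preserving bijections of `U × W`. -/
def ColAut (β : Φ →ₗ[ZMod 2] U →ₗ[ZMod 2] W) (f : (U × W) ≃ (U × W)) : Prop :=
  ∀ x y, col β (f x) (f y) = col β x y

/-- **Homogeneity.** -/
theorem exists_colAut (hβ : Sep β) {ι : Type*} (A B : ι → U × W)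
    (h : ∀ i j, col β (A i) (A j) = col β (B i) (B j)) :
    ∃ f, ColAut β f ∧ ∀ i, f (A i) = B i := by
  rcases isEmpty_or_nonempty ι with hι | ⟨⟨i₀⟩⟩
  · exact ⟨Equiv.refl _, fun x y => rfl, fun i => (hι.false i).elim⟩
  obtain ⟨φ, hφ⟩ := exists_shear hβ (fun i => A i₀ + A i) (fun i => B i₀ + B i) i₀
    (addself _) (addself _) (by
      intro i j
      rw [col_translate, col_translate]
      exact h i j)
  refine ⟨((Equiv.addLeft (A i₀)).trans (shear β φ)).trans (Equiv.addLeft (B i₀)), ?_, ?_⟩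
  · intro x y
    simp only [Equiv.trans_apply, Equiv.coe_addLeft]
    rw [col_translate, col_shear, col_translate]
  · intro i
    simp only [Equiv.trans_apply, Equiv.coe_addLeft]
    rw [← hφ i, add_cancel_two]

/-- Colour preserving bijections fixing `0` are shears. -/
theorem ColAut.eq_shear (hβ : Sep β) {f : (U × W) ≃ (U × W)} (hf : ColAut β f) (h0 : f 0 = 0) :
    ∃ φ, ∀ x, f x = shear β φ x :=
  exists_shear hβ (fun x => x) (fun x => f x) 0 rfl h0 (fun x y => (hf x y).symm)

end Pool.Agent.MPH
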