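import Mathlib

/-!
# Realisation of finite symmetric colourings as distance patterns of simplices
-/

set_option autoImplicit false

namespace Pool.Agent.MPH

open Matrix

/-- A quadratic form estimate. -/
theorem quad_ge {X : Type*} [Fintype X] [DecidableEq X] (w : X → X → ℝ)
    (hw : ∀ x y, |w x y| ≤ 1) (v : X → ℝ) :
    2 * ∑ x, v x ^ 2 ≤ ∑ x, ∑ y, v x * v y *
      (if x = y then (Fintype.card X : ℝ) + 1 else - w x y) := by
  have h1 : ∀ x y, (if x = y then ((Fintype.card X : ℝ) + 2) * v x ^ 2 else 0)
      - (v x ^ 2 + v y ^ 2) / 2 ≤ v x * v y *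
      (if x = y then (Fintype.card X : ℝ) + 1 else - w x y) := by
    intro x y
    by_cases h : x = y
    · subst h
      simp only [if_true]
      nlinarith
    · rw [if_neg h, if_neg h]
      have h2 := hw x y
      rw [abs_le] at h2
      obtain ⟨h3, h4⟩ := h2
      nlinarith [sq_nonneg (v x + v y), sq_nonneg (v x - v y)]
  have h2 : ∑ x, ∑ y, ((if x = y then ((Fintype.card X : ℝ) + 2) * v x ^ 2 else 0)
      - (v x ^ 2 + v y ^ 2) / 2) = 2 * ∑ x, v x ^ 2 := by
    have h3 : ∀ x, ∑ y, ((if x = y then ((Fintype.card X : ℝ) + 2) * v x ^ 2 else 0)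
      - (v x ^ 2 + v y ^ 2) / 2) = ((Fintype.card X : ℝ) + 2) * v x ^ 2
        - (Fintype.card X : ℝ) * v x ^ 2 / 2 - (∑ y, v y ^ 2) / 2 := by
      intro x
      rw [Finset.sum_sub_distrib, Finset.sum_ite_eq]
      simp only [Finset.mem_univ, if_true]
      rw [← Finset.sum_div, Finset.sum_add_distrib]
      simp only [Finset.sum_const, Finset.card_univ, nsmul_eq_mul]
      ring
    rw [Finset.sum_congr rfl (fun x _ => h3 x), Finset.sum_sub_distrib, Finset.sum_sub_distrib]
    simp only [Finset.sum_const, Finset.card_univ, nsmul_eq_mul]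
    rw [← Finset.mul_sum, ← Finset.sum_div, ← Finset.mul_sum]
    ring
  rw [← h2]
  exact Finset.sum_le_sum fun x _ => Finset.sum_le_sum fun y _ => h1 x y

/-- **Realisation.** Every finite symmetric colouring that separates equal from different points is
the distance pattern of the vertex set of a simplex inscribed in a sphere about the origin. -/
theorem exists_realisation {X : Type*} [Fintype X] {C : Type*} (c : X → X → C)
    (hs : ∀ x y, c x y = c y x) (h0 : ∀ x y z, c x y = c z z ↔ x = y) :
    ∃ (n : ℕ) (p : X → EuclideanSpace ℝ (Fin n)), LinearIndependent ℝ p ∧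
      (∃ r : ℝ, 0 < r ∧ ∀ x, ‖p x‖ = r) ∧
      ∀ x y z t, dist (p x) (p y) = dist (p z) (p t) ↔ c x y = c z t := by
  classical
  obtain ⟨f, hf⟩ := exists_injective_nat (Set.range (fun q : X × X => c q.1 q.2))
  let w : X → X → ℝ := fun x y => 1 / ((f ⟨c x y, ⟨(x, y), rfl⟩⟩ : ℝ) + 1)
  have hw0 : ∀ x y, 0 < w x y := fun x y => by
    have : (0 : ℝ) ≤ (f ⟨c x y, ⟨(x, y), rfl⟩⟩ : ℝ) := Nat.cast_nonneg _
    exact one_div_pos.2 (by linarith)
  have hw1 : ∀ x y, |w x y| ≤ 1 := fun x y => by
    rw [abs_of_pos (hw0 x y)]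
    have : (0 : ℝ) ≤ (f ⟨c x y, ⟨(x, y), rfl⟩⟩ : ℝ) := Nat.cast_nonneg _
    simp only [w]
    rw [div_le_one (by linarith)]
    linarith
  have hwinj : ∀ x y z t, w x y = w z t ↔ c x y = c z t := by
    intro x y z t
    constructor
    · intro h
      simp only [w, one_div, _root_.inv_inj, add_left_inj, Nat.cast_inj] at h
      have h2 := hf h
      exact congrArg Subtype.val h2
    · intro h
      have h2 : (⟨c x y, ⟨(x, y), rfl⟩⟩ : Set.range (fun q : X × X => c q.1 q.2)) =
          ⟨c z t, ⟨(z, t), rfl⟩⟩ := Subtype.ext h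
      simp only [w, h2]
  have hwsymm : ∀ x y, w x y = w y x := fun x y => (hwinj _ _ _ _).2 (hs x y)
  let M : Matrix X X ℝ := fun x y => if x = y then (Fintype.card X : ℝ) + 1 else - w x y
  have hMsymm : ∀ x y, M x y = M y x := by
    intro x y
    simp only [M]
    by_cases h : x = y
    · rw [if_pos h, if_pos h.symm]
    · rw [if_neg h, if_neg (Ne.symm h), hwsymm]
  have hquad : ∀ v : X → ℝ, 2 * ∑ x, v x ^ 2 ≤ ∑ x, ∑ y, v x * v y * M x y :=
    fun v => quad_ge w hw1 v
  have hpsd : M.PosSemidef := by
    apply Matrix.PosSemidef.of_dotProduct_mulVec_nonneg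
    · ext x y
      simp [Matrix.conjTranspose_apply, hMsymm x y]
    · intro v
      have h1 : star v ⬝ᵥ M *ᵥ v = ∑ x, ∑ y, v x * v y * M x y := by
        simp only [dotProduct, mulVec, Pi.star_apply, star_trivial, Finset.mul_sum]
        refine Finset.sum_congr rfl fun x _ => Finset.sum_congr rfl fun y _ => ?_
        ring
      rw [h1]
      refine le_trans ?_ (hquad v)
      positivity
  obtain ⟨m, v, hv⟩ := Matrix.posSemidef_iff_eq_sum_vecMulVec.1 hpsd
  let p : X → EuclideanSpace ℝ (Fin m) := fun x => WithLp.toLp 2 (fun i => v i x)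
  have hin : ∀ x y, inner ℝ (p x) (p y) = M x y := by
    intro x y
    have h1 : M x y = ∑ i, v i x * v i y := by
      rw [hv, Matrix.sum_apply]
      simp [vecMulVec_apply]
    rw [h1, PiLp.inner_apply]
    refine Finset.sum_congr rfl fun i _ => ?_
    simp [p, mul_comm]
  have hnorm : ∀ x, ‖p x‖ ^ 2 = (Fintype.card X : ℝ) + 1 := by
    intro x
    rw [← real_inner_self_eq_norm_sq, hin]
    simp [M]
  have hdist : ∀ x y, x ≠ y → dist (p x) (p y) ^ 2 = 2 * ((Fintype.card X : ℝ) + 1) + 2 * w x y := by
    intro x y hxy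
    rw [dist_eq_norm, norm_sub_sq_real, hnorm, hnorm, hin]
    simp only [M, if_neg hxy]
    ring
  refine ⟨m, p, ?_, ⟨Real.sqrt ((Fintype.card X : ℝ) + 1), by positivity, fun x => ?_⟩, ?_⟩
  · rw [Fintype.linearIndependent_iff]
    intro g hg
    have h1 : (0 : ℝ) = ∑ x, ∑ y, g x * g y * M x y := by
      have h2 : inner ℝ (∑ x, g x • p x) (∑ y, g y • p y) = (0 : ℝ) := by
        rw [hg, inner_zero_left]
      rw [← h2, sum_inner]
      refine Finset.sum_congr rfl fun x _ => ?_
      rw [inner_sum]
      refine Finset.sum_congr rfl fun y _ => ?_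
      rw [real_inner_smul_left, real_inner_smul_right, hin]
      ring
    have h2 := hquad g
    rw [← h1] at h2
    have h3 : ∑ x, g x ^ 2 = 0 := by
      have : 0 ≤ ∑ x, g x ^ 2 := Finset.sum_nonneg fun x _ => sq_nonneg _
      linarith
    intro x
    have h4 := (Finset.sum_eq_zero_iff_of_nonneg (fun x _ => sq_nonneg (g x))).1 h3 x
      (Finset.mem_univ x)
    exact pow_eq_zero_iff (two_ne_zero) |>.1 h4
  · rw [← hnorm x, Real.sqrt_sq (norm_nonneg _)]
  · intro x y z t
    by_cases h1 : x = y
    · subst h1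
      rw [dist_self, eq_comm, dist_eq_zero, eq_comm (a := c x x), h0]
      constructor
      · intro h2
        by_contra h3
        have h4 := hdist z t h3
        rw [h2, dist_self] at h4
        have := hw0 z t
        have h5 : (0 : ℝ) ≤ (Fintype.card X : ℝ) := Nat.cast_nonneg _
        nlinarith
      · rintro rfl
        rfl
    · by_cases h2 : z = t
      · subst h2
        rw [dist_self, dist_eq_zero, h0]
        constructor
        · intro h3
          by_contra h4
          have h5 := hdist x y h4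
          rw [h3, dist_self] at h5
          have := hw0 x y
          have h6 : (0 : ℝ) ≤ (Fintype.card X : ℝ) := Nat.cast_nonneg _
          nlinarith
        · rintro rfl
          rfl
      · rw [← hwinj, ← pow_left_inj₀ dist_nonneg dist_nonneg (two_ne_zero), hdist x y h1,
          hdist z t h2]
        constructor
        · intro h; linarith
        · intro h; linarith

/-- Points on a sphere are the vertices of their convex hull. -/
theorem extremePoints_of_sphere {n : ℕ} {M : Set (EuclideanSpace ℝ (Fin n))} {r : ℝ}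
    (hr : 0 < r) (hM : ∀ x ∈ M, ‖x‖ = r) : (convexHull ℝ M).extremePoints ℝ = M := by
  apply Set.Subset.antisymm extremePoints_convexHull_subset
  intro x hx
  have h1 : M ⊆ Metric.closedBall 0 r := fun y hy => by
    rw [mem_closedBall_zero_iff, hM y hy]
  have h2 : x ∈ (Metric.closedBall (0 : EuclideanSpace ℝ (Fin n)) r).extremePoints ℝ :=
    StrictConvexSpace.sphere_subset_extremePoints_closedBall 0 hr.ne' (by simp [hM x hx])
  have h3 : convexHull ℝ M ⊆ Metric.closedBall 0 r :=
    convexHull_min h1 (convex_closedBall _ _)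
  exact inter_extremePoints_subset_extremePoints_of_subset h3 ⟨subset_convexHull ℝ M hx, h2⟩

end Pool.Agent.MPH
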