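import Pool.Agent.Helper21.MPH.Basic
import Pool.Agent.Helper21.MPH.Realise

/-!
# Polytopes, point homogeneity and distance patterns
-/

set_option autoImplicit false

namespace Pool.Agent.MPH

/-- A metric space is `m`-point homogeneous if every distance preserving map between two `m`-tuples
of points (repetitions allowed) extends to an isometry of the space onto itself. -/
def PointHomogeneous (m : ℕ) (M : Type*) [MetricSpace M] : Prop :=
  ∀ A B : Fin m → M, (∀ i j, dist (A i) (A j) = dist (B i) (B j)) →
    ∃ f : M ≃ᵢ M, ∀ i, f (A i) = B i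

/-- The set of vertices of a convex polytope. -/
def vertices {n : ℕ} (P : Set (EuclideanSpace ℝ (Fin n))) : Set (EuclideanSpace ℝ (Fin n)) :=
  P.extremePoints ℝ

/-- `P` is a simplex: the convex hull of a finite affinely independent set of points. -/
def IsSimplex {n : ℕ} (P : Set (EuclideanSpace ℝ (Fin n))) : Prop :=
  ∃ V : Set (EuclideanSpace ℝ (Fin n)), V.Finite ∧
    AffineIndependent ℝ (fun x : V => (x : EuclideanSpace ℝ (Fin n))) ∧ P = convexHull ℝ V

/-- Two metric spaces have the same distance pattern if some bijection between them preserves and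
reflects equality of distances. -/
def SamePattern (M M' : Type*) [MetricSpace M] [MetricSpace M'] : Prop :=
  ∃ F : M ≃ M', ∀ x y z t : M, dist x y = dist z t ↔ dist (F x) (F y) = dist (F z) (F t)

/-- Realisation of a homogeneous colouring by a polytope. -/
theorem exists_polytope {X : Type*} [Finite X] {C : Type*} (c : X → X → C)
    (hs : ∀ x y, c x y = c y x) (h0 : ∀ x y z, c x y = c z z ↔ x = y)
    (hhom : ∀ (m : ℕ) (A B : Fin m → X), (∀ i j, c (A i) (A j) = c (B i) (B j)) →
      ∃ f : X ≃ X, (∀ x y, c (f x) (f y) = c x y) ∧ ∀ i, f (A i) = B i) :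
    ∃ (n : ℕ) (P : Set (EuclideanSpace ℝ (Fin n))), IsSimplex P ∧
      (∀ m, PointHomogeneous m (vertices P)) ∧
      ∃ e : X ≃ vertices P, ∀ x y z t, dist (e x) (e y) = dist (e z) (e t) ↔ c x y = c z t := by
  classical
  have := Fintype.ofFinite X
  obtain ⟨n, p, hp, ⟨r, hr, hpr⟩, hd⟩ := exists_realisation c hs h0
  have hpinj : Function.Injective p := hp.injective
  have hvert : vertices (convexHull ℝ (Set.range p)) = Set.range p :=
    extremePoints_of_sphere hr (by rintro _ ⟨x, rfl⟩; exact hpr x)
  let e : X ≃ vertices (convexHull ℝ (Set.range p)) :=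
    (Equiv.ofInjective p hpinj).trans (Equiv.setCongr hvert.symm)
  have he : ∀ x, ((e x : vertices (convexHull ℝ (Set.range p))) : EuclideanSpace ℝ (Fin n)) = p x :=
    fun x => rfl
  have hed : ∀ x y z t, dist (e x) (e y) = dist (e z) (e t) ↔ c x y = c z t := by
    intro x y z t
    rw [Subtype.dist_eq, Subtype.dist_eq, he, he, he, he]
    exact hd x y z t
  refine ⟨n, convexHull ℝ (Set.range p), ⟨Set.range p, Set.finite_range p, ?_, rfl⟩, ?_, e, hed⟩
  · exact hp.affineIndependent.range
  · intro m A B hAB
    obtain ⟨f, hf, hfA⟩ := hhom m (fun i => e.symm (A i)) (fun i => e.symm (B i)) (by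
      intro i j
      rw [← hed]
      simpa using hAB i j)
    refine ⟨⟨(e.symm.trans f).trans e, ?_⟩, ?_⟩
    · apply Isometry.of_dist_eq
      intro x y
      simp only [Equiv.toFun_as_coe, Equiv.trans_apply]
      have h1 := (hed (f (e.symm x)) (f (e.symm y)) (e.symm x) (e.symm y)).2 (hf _ _)
      rw [h1, Equiv.apply_symm_apply, Equiv.apply_symm_apply]
    · intro i
      change e (f (e.symm (A i))) = B i
      rw [hfA, Equiv.apply_symm_apply]

/-- Polytopes attached to separated bilinear maps. -/
theorem exists_polytope_of_sep {Φ U W : Type*} [AddCommGroup Φ] [Module (ZMod 2) Φ]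
    [AddCommGroup U] [Module (ZMod 2) U] [AddCommGroup W] [Module (ZMod 2) W] [Finite U] [Finite W]
    {β : Φ →ₗ[ZMod 2] U →ₗ[ZMod 2] W} (hβ : Sep β) :
    ∃ (n : ℕ) (P : Set (EuclideanSpace ℝ (Fin n))), IsSimplex P ∧
      (∀ m, PointHomogeneous m (vertices P)) ∧
      ∃ e : U × W ≃ vertices P, ∀ x y z t, dist (e x) (e y) = dist (e z) (e t) ↔
        col β x y = col β z t :=
  exists_polytope (col β) col_comm (fun _ _ _ => col_self_iff)
    (fun _ A B h => exists_colAut hβ A B h)

end Pool.Agent.MPH
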