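import Pool.Agent.Helper21.MPH.EncodeIso
import Pool.Agent.Helper21.MPH.Poly

/-!
# Many polytopes whose vertex sets are m-point homogeneous for every m
-/

set_option autoImplicit false

namespace Pool.Agent.MPH

open Matrix Finset

/-- The bilinear map of a tensor. -/
def bilT {a b c : ℕ} (T : Fin c → Fin a × Fin b → ZMod 2) :
    (Fin a → ZMod 2) →ₗ[ZMod 2] (Fin b → ZMod 2) →ₗ[ZMod 2] (Fin c → ZMod 2) :=
  LinearMap.mk₂ (ZMod 2) (fun φ u k => ∑ s, T k s * (φ s.1 * u s.2))
    (by
      intro φ ψ u
      funext k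
      simp only [Pi.add_apply, add_mul, mul_add, Finset.sum_add_distrib])
    (by
      intro r φ u
      funext k
      simp only [Pi.smul_apply, smul_eq_mul, Finset.mul_sum]
      refine Finset.sum_congr rfl fun s _ => ?_
      ring)
    (by
      intro φ u v
      funext k
      simp only [Pi.add_apply, mul_add, Finset.sum_add_distrib])
    (by
      intro r φ u
      funext k
      simp only [Pi.smul_apply, smul_eq_mul, Finset.mul_sum]
      refine Finset.sum_congr rfl fun s _ => ?_
      ring)

theorem bilT_apply {a b c : ℕ} (T : Fin c → Fin a × Fin b → ZMod 2) (φ : Fin a → ZMod 2)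
    (u : Fin b → ZMod 2) (k : Fin c) : bilT T φ u k = ∑ s, T k s * (φ s.1 * u s.2) := rfl

theorem bilT_injective {a b c : ℕ} {T T' : Fin c → Fin a × Fin b → ZMod 2}
    (h : ∀ φ u, bilT T φ u = bilT T' φ u) : T = T' := by
  classical
  funext k s
  have h1 := congrFun (h (Pi.single s.1 1) (Pi.single s.2 1)) k
  rw [bilT_apply, bilT_apply] at h1
  have h2 : ∀ R : Fin c → Fin a × Fin b → ZMod 2,
      ∑ t, R k t * ((Pi.single s.1 1 : Fin a → ZMod 2) t.1 * (Pi.single s.2 1 : Fin b → ZMod 2) t.2)
        = R k s := by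
    intro R
    rw [Finset.sum_eq_single s]
    · simp
    · intro t _ ht
      by_cases h3 : t.1 = s.1
      · have h4 : t.2 ≠ s.2 := fun h5 => ht (Prod.ext h3 h5)
        simp [Pi.single_apply, h4]
      · simp [Pi.single_apply, h3]
    · simp
  rw [h2, h2] at h1
  exact h1

theorem eq_zero_of_vmv {a b : ℕ} {φ ψ : Fin a → ZMod 2} {u v : Fin b → ZMod 2}
    (h3 : ∀ s t, φ s * u t = ψ s * v t) (hu : u ≠ 0) (hv : v ≠ 0) (huv : u ≠ v) :
    φ = 0 ∧ ψ = 0 := by
  have h4 : φ = 0 := by
    by_contra hφ
    obtain ⟨s, hs⟩ := Function.ne_iff.1 hφ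
    have hs1 : φ s = 1 := by
      rcases zmod_two_cases (φ s) with h5 | h5
      · exact absurd h5 hs
      · exact h5
    rcases zmod_two_cases (ψ s) with h5 | h5
    · apply hu
      funext t
      have := h3 s t
      rw [hs1, h5, one_mul, zero_mul] at this
      exact this
    · apply huv
      funext t
      have := h3 s t
      rw [hs1, h5, one_mul, one_mul] at this
      exact this
  refine ⟨h4, ?_⟩
  obtain ⟨t, ht⟩ := Function.ne_iff.1 hv
  funext s
  have h5 := h3 s t
  rw [h4] at h5
  simp only [Pi.zero_apply, zero_mul] at h5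
  rcases mul_eq_zero.1 h5.symm with h6 | h6
  · exact h6
  · exact absurd h6 ht

/-- If the bilinear map of `T` is not separated, then `T` annihilates a nonzero matrix that is a sum
of two rank one matrices. -/
theorem exists_of_not_sep {a b c : ℕ} {T : Fin c → Fin a × Fin b → ZMod 2}
    (h : ¬ Sep (bilT T)) : ∃ (φ ψ : Fin a → ZMod 2) (u v : Fin b → ZMod 2),
      (fun s : Fin a × Fin b => φ s.1 * u s.2 + ψ s.1 * v s.2) ≠ 0 ∧
      ∀ k, ∑ s, T k s * (φ s.1 * u s.2 + ψ s.1 * v s.2) = 0 := by
  by_contra hcon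
  push Not at hcon
  apply h
  constructor
  · intro φ u hu h1
    by_contra hφ
    obtain ⟨s, hs⟩ := Function.ne_iff.1 hφ
    obtain ⟨t, ht⟩ := Function.ne_iff.1 hu
    obtain ⟨k, hk⟩ := hcon φ 0 u 0 (by
      intro h2
      have h3 := congrFun h2 (s, t)
      simp only [Pi.zero_apply, mul_zero, add_zero, mul_eq_zero] at h3
      rcases h3 with h3 | h3
      · exact hs h3
      · exact ht h3)
    apply hk
    have h2 := congrFun h1 k
    rw [bilT_apply] at h2
    simpa using h2
  · intro φ ψ u v hu hv huv h1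
    by_contra hne
    obtain ⟨k, hk⟩ := hcon φ ψ u v (by
      intro h2
      apply hne
      apply eq_zero_of_vmv _ hu hv huv
      intro s t
      exact eq_of_add_eq_zero' (congrFun h2 (s, t)))
    apply hk
    have h2 := congrFun h1 k
    rw [bilT_apply, bilT_apply] at h2
    simp only [mul_add]
    rw [Finset.sum_add_distrib, h2, addself]

theorem card_hyperplane {N : Type*} [Fintype N] {M : N → ZMod 2} (hM : M ≠ 0) :
    Nat.card {t : N → ZMod 2 // ∑ s, t s * M s = 0} * 2 = 2 ^ Fintype.card N := by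
  classical
  let L : (N → ZMod 2) →ₗ[ZMod 2] ZMod 2 :=
    { toFun := fun t => ∑ s, t s * M s
      map_add' := by
        intro t t'
        simp only [Pi.add_apply, add_mul, Finset.sum_add_distrib]
      map_smul' := by
        intro r t
        simp only [Pi.smul_apply, smul_eq_mul, RingHom.id_apply, Finset.mul_sum, mul_assoc] }
  have hL : Function.Surjective L := by
    obtain ⟨s, hs⟩ := Function.ne_iff.1 hM
    have hs1 : M s = 1 := by
      rcases zmod_two_cases (M s) with h5 | h5
      · exact absurd h5 hs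
      · exact h5
    intro r
    refine ⟨Pi.single s r, ?_⟩
    change ∑ s', (Pi.single s r : N → ZMod 2) s' * M s' = r
    rw [Finset.sum_eq_single s]
    · simp [hs1]
    · intro t _ ht
      simp [Pi.single_apply, ht]
    · simp
  have h1 := Submodule.card_eq_card_quotient_mul_card (LinearMap.ker L)
  have h2 : Nat.card ((N → ZMod 2) ⧸ LinearMap.ker L) = 2 := by
    rw [Nat.card_congr (LinearMap.quotKerEquivOfSurjective L hL).toEquiv]
    simp
  have h3 : Nat.card {t : N → ZMod 2 // ∑ s, t s * M s = 0} = Nat.card (LinearMap.ker L) :=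
    Nat.card_congr (Equiv.subtypeEquivRight fun t => by
      rw [LinearMap.mem_ker]; rfl)
  rw [h2] at h1
  rw [h3, mul_comm]
  rw [mul_comm] at h1
  have h4 : Nat.card (N → ZMod 2) = 2 ^ Fintype.card N := by
    rw [Nat.card_fun]; simp
  rw [← h4, h1]

/-- At least half of all tensors are separated. -/
theorem card_sep_ge (a b c : ℕ) (hc : 2 * a + 2 * b + 1 ≤ c) :
    2 ^ (a * b * c) ≤ 2 * Nat.card {T : Fin c → Fin a × Fin b → ZMod 2 // Sep (bilT T)} := by
  classical
  have hall : Fintype.card (Fin c → Fin a × Fin b → ZMod 2) = 2 ^ (a * b * c) := by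
    rw [Fintype.card_fun, Fintype.card_fun]
    simp only [ZMod.card, Fintype.card_prod, Fintype.card_fin]
    rw [← pow_mul]
  let Q := (Fin a → ZMod 2) × (Fin a → ZMod 2) × (Fin b → ZMod 2) × (Fin b → ZMod 2)
  let mat : Q → (Fin a × Fin b → ZMod 2) := fun q s => q.1 s.1 * q.2.2.1 s.2 + q.2.1 s.1 * q.2.2.2 s.2
  have hQ : Fintype.card Q = 2 ^ (2 * a + 2 * b) := by
    simp only [Q, Fintype.card_prod, Fintype.card_fun, ZMod.card, Fintype.card_fin]
    ring
  have hbad : (univ.filter (fun T : Fin c → Fin a × Fin b → ZMod 2 => ¬ Sep (bilT T))) ⊆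
      (univ.filter (fun q : Q => mat q ≠ 0)).biUnion
        (fun q => univ.filter (fun T : Fin c → Fin a × Fin b → ZMod 2 =>
          ∀ k, ∑ s, T k s * mat q s = 0)) := by
    intro T hT
    simp only [mem_filter, mem_univ, true_and] at hT
    obtain ⟨φ, ψ, u, v, h1, h2⟩ := exists_of_not_sep hT
    simp only [mem_biUnion, mem_filter, mem_univ, true_and]
    exact ⟨(φ, ψ, u, v), h1, h2⟩
  have hone : ∀ q : Q, mat q ≠ 0 → (univ.filter (fun T : Fin c → Fin a × Fin b → ZMod 2 =>
          ∀ k, ∑ s, T k s * mat q s = 0)).card * 2 ^ c = 2 ^ (a * b * c) := by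
    intro q hq
    have h1 := card_hyperplane hq
    have h2 : (univ.filter (fun T : Fin c → Fin a × Fin b → ZMod 2 =>
          ∀ k, ∑ s, T k s * mat q s = 0)).card =
        Nat.card {t : Fin a × Fin b → ZMod 2 // ∑ s, t s * mat q s = 0} ^ c := by
      have h3 : Nat.card (Fin c → {t : Fin a × Fin b → ZMod 2 // ∑ s, t s * mat q s = 0}) =
          Nat.card {t : Fin a × Fin b → ZMod 2 // ∑ s, t s * mat q s = 0} ^ c := by
        rw [Nat.card_fun]; simp
      rw [← h3, ← Nat.card_congr (Equiv.subtypePiEquivPi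
        (p := fun (_ : Fin c) (t : Fin a × Fin b → ZMod 2) => ∑ s, t s * mat q s = 0)),
        Nat.card_eq_fintype_card, Fintype.card_subtype]
    rw [h2, ← mul_pow, h1, ← pow_mul]
    simp
  have hbad2 : (univ.filter (fun T : Fin c → Fin a × Fin b → ZMod 2 => ¬ Sep (bilT T))).card *
      2 ^ c ≤ 2 ^ (2 * a + 2 * b) * 2 ^ (a * b * c) := by
    calc _ ≤ (∑ q ∈ univ.filter (fun q : Q => mat q ≠ 0),
          (univ.filter (fun T : Fin c → Fin a × Fin b → ZMod 2 =>
          ∀ k, ∑ s, T k s * mat q s = 0)).card) * 2 ^ c :=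
          Nat.mul_le_mul_right _ (le_trans (card_le_card hbad) card_biUnion_le)
      _ = ∑ q ∈ univ.filter (fun q : Q => mat q ≠ 0), 2 ^ (a * b * c) := by
          rw [Finset.sum_mul]
          refine Finset.sum_congr rfl fun q hq => hone q ?_
          simpa using hq
      _ = (univ.filter (fun q : Q => mat q ≠ 0)).card * 2 ^ (a * b * c) := by
          rw [Finset.sum_const, smul_eq_mul]
      _ ≤ 2 ^ (2 * a + 2 * b) * 2 ^ (a * b * c) := by
          refine Nat.mul_le_mul_right _ ?_
          rw [← hQ]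
          exact card_filter_le _ _
  have hsum : (univ.filter (fun T : Fin c → Fin a × Fin b → ZMod 2 => Sep (bilT T))).card +
      (univ.filter (fun T : Fin c → Fin a × Fin b → ZMod 2 => ¬ Sep (bilT T))).card =
      2 ^ (a * b * c) := by
    rw [← hall, ← Finset.card_univ]
    exact Finset.card_filter_add_card_filter_not _
  have hgood : Nat.card {T : Fin c → Fin a × Fin b → ZMod 2 // Sep (bilT T)} =
      (univ.filter (fun T : Fin c → Fin a × Fin b → ZMod 2 => Sep (bilT T))).card := by
    rw [Nat.card_eq_fintype_card, Fintype.card_subtype]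
  rw [hgood]
  -- twice the number of bad tensors is at most the number of all tensors
  have h5 : 2 ^ (2 * a + 2 * b) * 2 ≤ 2 ^ c := by
    rw [← pow_succ]
    exact Nat.pow_le_pow_right (by norm_num) hc
  have h6 : (univ.filter (fun T : Fin c → Fin a × Fin b → ZMod 2 => ¬ Sep (bilT T))).card * 2 ≤
      2 ^ (a * b * c) := by
    have h7 : 0 < 2 ^ (2 * a + 2 * b) := by positivity
    refine Nat.le_of_mul_le_mul_left ?_ h7
    calc 2 ^ (2 * a + 2 * b) * ((univ.filter (fun T : Fin c → Fin a × Fin b → ZMod 2 =>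
            ¬ Sep (bilT T))).card * 2)
        = (univ.filter (fun T : Fin c → Fin a × Fin b → ZMod 2 =>
            ¬ Sep (bilT T))).card * (2 ^ (2 * a + 2 * b) * 2) := by ring
      _ ≤ (univ.filter (fun T : Fin c → Fin a × Fin b → ZMod 2 =>
            ¬ Sep (bilT T))).card * 2 ^ c := Nat.mul_le_mul_left _ h5
      _ ≤ _ := hbad2
  omega

end Pool.Agent.MPH
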