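import Pool.Agent.Helper21.MPH.Count

/-!
# The number of isomorphism types of colourings from separated tensors
-/

set_option autoImplicit false

namespace Pool.Agent.MPH

open Matrix Finset

section Trans

variable {Φ U W : Type*} [AddCommGroup Φ] [Module (ZMod 2) Φ] [AddCommGroup U] [Module (ZMod 2) U]
  [AddCommGroup W] [Module (ZMod 2) W]
variable {Φ' U' W' : Type*} [AddCommGroup Φ'] [Module (ZMod 2) Φ'] [AddCommGroup U']
  [Module (ZMod 2) U'] [AddCommGroup W'] [Module (ZMod 2) W']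
variable {Φ'' U'' W'' : Type*} [AddCommGroup Φ''] [Module (ZMod 2) Φ''] [AddCommGroup U'']
  [Module (ZMod 2) U''] [AddCommGroup W''] [Module (ZMod 2) W'']
variable {β : Φ →ₗ[ZMod 2] U →ₗ[ZMod 2] W} {β' : Φ' →ₗ[ZMod 2] U' →ₗ[ZMod 2] W'}
  {β'' : Φ'' →ₗ[ZMod 2] U'' →ₗ[ZMod 2] W''}
  {F : (U × W) ≃ (U' × W')} {F' : (U' × W') ≃ (U'' × W'')}

theorem ColIso.trans (h : ColIso β β' F) (h' : ColIso β' β'' F') : ColIso β β'' (F.trans F') := by
  intro x y z t
  rw [h x y z t, h' (F x) (F y) (F z) (F t)]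
  rfl

end Trans

/-- The type of separated tensors. -/
abbrev ST (a b c : ℕ) := {T : Fin c → Fin a × Fin b → ZMod 2 // Sep (bilT T)}

/-- Isomorphism of the colourings of separated tensors. -/
def stSetoid (a b c : ℕ) : Setoid (ST a b c) where
  r T T' := ∃ F, ColIso (bilT T.1) (bilT T'.1) F
  iseqv :=
    { refl := fun _ => ⟨Equiv.refl _, fun _ _ _ _ => Iff.rfl⟩
      symm := fun ⟨F, hF⟩ => ⟨F.symm, hF.symm⟩
      trans := fun ⟨F, hF⟩ ⟨F', hF'⟩ => ⟨F.trans F', hF.trans hF'⟩ }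

theorem exists_other' {b : ℕ} (hb : 2 ≤ b) (u : Fin b → ZMod 2) :
    ∃ u' : Fin b → ZMod 2, u' ≠ 0 ∧ u' ≠ u := by
  classical
  let i0 : Fin b := ⟨0, by omega⟩
  let i1 : Fin b := ⟨1, by omega⟩
  have h01 : i0 ≠ i1 := by
    intro h
    have := congrArg Fin.val h
    simp [i0, i1] at this
  have h0 : (Pi.single i0 1 : Fin b → ZMod 2) ≠ Pi.single i1 1 := by
    intro h
    have := congrFun h i0
    simp [h01] at this
  by_cases h : u = Pi.single i0 1
  · refine ⟨Pi.single i1 1, by simp, ?_⟩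
    rw [h]; exact h0.symm
  · exact ⟨Pi.single i0 1, by simp, fun h1 => h h1.symm⟩

theorem card_addEquiv_le (n : ℕ) : Nat.card ((Fin n → ZMod 2) ≃+ (Fin n → ZMod 2)) ≤ 2 ^ n ^ 2 := by
  classical
  have h1 : Nat.card (Matrix (Fin n) (Fin n) (ZMod 2)) = 2 ^ n ^ 2 := by
    change Nat.card (Fin n → Fin n → ZMod 2) = _
    rw [Nat.card_fun, Nat.card_fun]
    simp only [Nat.card_eq_fintype_card, Fintype.card_fin, ZMod.card]
    rw [← pow_mul, sq]
  rw [← h1]
  apply Nat.card_le_card_of_injective (fun e => mt e.toAddMonoidHom)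
  intro e e' h
  ext1 x
  have h2 : mt e.toAddMonoidHom *ᵥ x = mt e'.toAddMonoidHom *ᵥ x := by
    simp only at h
    rw [h]
  rw [mt_mulVec, mt_mulVec] at h2
  exact h2

instance finite_addEquiv (n : ℕ) : Finite ((Fin n → ZMod 2) ≃+ (Fin n → ZMod 2)) := by
  refine Finite.of_injective
    (fun (e : (Fin n → ZMod 2) ≃+ (Fin n → ZMod 2)) (x : Fin n → ZMod 2) => e x) ?_
  intro e e' h
  ext1 x
  exact congrFun h x

/-- The class of a separated tensor is small. -/
theorem card_class_le {a b c : ℕ} (ha : 1 ≤ a) (hb : 2 ≤ b) (T : ST a b c) :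
    Nat.card {T' : ST a b c // (stSetoid a b c).r T T'} ≤ 2 ^ (a ^ 2 + b ^ 2 + c ^ 2) := by
  classical
  have key : ∀ T' : {T' : ST a b c // (stSetoid a b c).r T T'},
      ∃ q : ((Fin a → ZMod 2) ≃+ (Fin a → ZMod 2)) × ((Fin b → ZMod 2) ≃+ (Fin b → ZMod 2)) ×
        ((Fin c → ZMod 2) ≃+ (Fin c → ZMod 2)),
        ∀ φ u, q.2.2 (bilT T.1 φ u) = bilT T'.1.1 (q.1 φ) (q.2.1 u) := by
    rintro ⟨T', F, hF⟩
    obtain ⟨θ, f, g, h⟩ := equiv_of_colIso T.2 T'.2 (exists_other' hb) (exists_other' hb)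
      ⟨Pi.single ⟨0, ha⟩ 1, by simp⟩ hF
    exact ⟨(θ, f, g), h⟩
  choose q hq using key
  have hinj : Function.Injective q := by
    intro T₁ T₂ h
    apply Subtype.ext
    apply Subtype.ext
    apply bilT_injective
    intro φ u
    have h1 := hq T₁ ((q T₁).1.symm φ) ((q T₁).2.1.symm u)
    have h2 := hq T₂ ((q T₁).1.symm φ) ((q T₁).2.1.symm u)
    rw [← h] at h2
    rw [h1] at h2
    simpa using h2
  have h1 := Nat.card_le_card_of_injective q hinj
  rw [Nat.card_prod, Nat.card_prod] at h1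
  calc _ ≤ _ := h1
    _ ≤ 2 ^ a ^ 2 * (2 ^ b ^ 2 * 2 ^ c ^ 2) :=
      Nat.mul_le_mul (card_addEquiv_le a) (Nat.mul_le_mul (card_addEquiv_le b)
        (card_addEquiv_le c))
    _ = _ := by rw [pow_add, pow_add, mul_assoc]

/-- There are many classes of separated tensors. -/
theorem card_quotient_ge {a b c : ℕ} (ha : 1 ≤ a) (hb : 2 ≤ b) (hc : 2 * a + 2 * b + 1 ≤ c) :
    2 ^ (a * b * c) ≤ 2 ^ (1 + a ^ 2 + b ^ 2 + c ^ 2) * Nat.card (Quotient (stSetoid a b c)) := by
  classical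
  have h1 := card_sep_ge a b c hc
  have h2 : Nat.card (ST a b c) ≤ 2 ^ (a ^ 2 + b ^ 2 + c ^ 2) *
      Nat.card (Quotient (stSetoid a b c)) := by
    rw [Nat.card_eq_fintype_card, Nat.card_eq_fintype_card, mul_comm]
    have h3 : ∀ Q ∈ (Finset.univ : Finset (Quotient (stSetoid a b c))),
        (Finset.univ.filter (fun T : ST a b c =>
          (Quotient.mk (stSetoid a b c) T) = Q)).card ≤ 2 ^ (a ^ 2 + b ^ 2 + c ^ 2) := by
      intro Q _
      induction Q using Quotient.inductionOn with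
      | h T =>
        refine le_trans (le_of_eq ?_) (card_class_le ha hb T)
        rw [Nat.card_eq_fintype_card, Fintype.card_subtype]
        congr 1
        ext T'
        simp only [mem_filter, mem_univ, true_and]
        rw [Quotient.eq]
        exact ⟨fun h => (stSetoid a b c).symm h, fun h => (stSetoid a b c).symm h⟩
    have h4 := Finset.card_le_mul_card_image_of_maps_to
      (s := (Finset.univ : Finset (ST a b c))) (t := Finset.univ)
      (f := fun T => Quotient.mk (stSetoid a b c) T) (fun _ _ => Finset.mem_univ _) _ h3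
    rw [Finset.card_univ, Finset.card_univ, mul_comm] at h4
    exact h4
  calc 2 ^ (a * b * c) ≤ 2 * Nat.card (ST a b c) := h1
    _ ≤ 2 * (2 ^ (a ^ 2 + b ^ 2 + c ^ 2) * Nat.card (Quotient (stSetoid a b c))) :=
      Nat.mul_le_mul_left _ h2
    _ = _ := by
      rw [show 1 + a ^ 2 + b ^ 2 + c ^ 2 = 1 + (a ^ 2 + b ^ 2 + c ^ 2) by ring,
        pow_add 2 1, pow_one, mul_assoc]

end Pool.Agent.MPH
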