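import Mathlib

/-!
# Cancellation of cubes for finite systems of additive maps (Lovász)
-/

set_option autoImplicit false

namespace Pool.Agent.MPH

open Finset

theorem card_ge_eq_sum {P : Type*} [PartialOrder P] [Fintype P] [DecidableLT P] {D : Type*}
    [Finite D] (k : D → P) (L : P) :
    Nat.card {a // L ≤ k a} = Nat.card {a // k a = L} +
      ∑ K ∈ univ.filter (fun K => L < K), Nat.card {a // k a = K} := by
  classical
  have := Fintype.ofFinite D
  have h1 : Nat.card {a // L ≤ k a} = (univ.filter (fun a => L ≤ k a)).card := by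
    rw [Nat.card_eq_fintype_card, Fintype.card_subtype]
  have h2 : ∀ K, Nat.card {a // k a = K} = (univ.filter (fun a => k a = K)).card := by
    intro K
    rw [Nat.card_eq_fintype_card, Fintype.card_subtype]
  rw [h1, h2 L, Finset.sum_congr rfl (fun K _ => h2 K)]
  have h3 : (univ.filter (fun a => L ≤ k a)) =
      (univ.filter (fun a => k a = L)) ∪ (univ.filter (fun a => L < k a)) := by
    ext a
    simp only [mem_filter, mem_univ, true_and, mem_union]
    constructor
    · intro h4
      rcases h4.eq_or_lt with h5 | h5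
      · exact Or.inl h5.symm
      · exact Or.inr h5
    · rintro (h4 | h4)
      · exact h4.symm.le
      · exact h4.le
  rw [h3, card_union_of_disjoint]
  · congr 1
    rw [card_eq_sum_card_fiberwise (f := k) (t := univ.filter (fun K => L < K))]
    · refine Finset.sum_congr rfl fun K hK => ?_
      congr 1
      ext a
      simp only [mem_filter, mem_univ, true_and] at hK ⊢
      constructor
      · rintro ⟨-, rfl⟩; rfl
      · rintro rfl; exact ⟨hK, rfl⟩
    · intro a ha
      simp only [coe_filter, mem_univ, true_and] at ha ⊢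
      exact ha
  · rw [Finset.disjoint_left]
    intro a h4 h5
    simp only [mem_filter, mem_univ, true_and] at h4 h5
    exact absurd h4 h5.ne'

/-- Möbius inversion without the Möbius function. -/
theorem card_eq_of_card_ge {P A B : Type*} [PartialOrder P] [Finite P] [Finite A] [Finite B]
    (kA : A → P) (kB : B → P)
    (h : ∀ L, Nat.card {a // L ≤ kA a} = Nat.card {b // L ≤ kB b}) (L : P) :
    Nat.card {a // kA a = L} = Nat.card {b // kB b = L} := by
  classical
  have := Fintype.ofFinite P
  have hwf : WellFounded (fun a b : P => b < a) := Finite.wellFounded_of_trans_of_irrefl _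
  induction L using hwf.induction with
  | _ L ih =>
    have h1 := h L
    rw [card_ge_eq_sum kA L, card_ge_eq_sum kB L] at h1
    have h2 : ∑ K ∈ univ.filter (fun K => L < K), Nat.card {a // kA a = K} =
        ∑ K ∈ univ.filter (fun K => L < K), Nat.card {a // kB a = K} := by
      refine Finset.sum_congr rfl fun K hK => ih K ?_
      simpa using hK
    omega

variable {Ω V₁ V₂ V₁' V₂' : Type*} [AddCommGroup V₁] [AddCommGroup V₂] [AddCommGroup V₁']
  [AddCommGroup V₂']

/-- Homomorphisms of systems of additive maps. -/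
@[ext]
structure RHom (x : Ω → V₁ →+ V₂) (x' : Ω → V₁' →+ V₂') where
  f₁ : V₁ →+ V₁'
  f₂ : V₂ →+ V₂'
  comm : ∀ ω v, f₂ (x ω v) = x' ω (f₁ v)

instance [Finite V₁] [Finite V₂] [Finite V₁'] [Finite V₂'] (x : Ω → V₁ →+ V₂)
    (x' : Ω → V₁' →+ V₂') : Finite (RHom x x') := by
  have : Finite (V₁ →+ V₁') := DFunLike.finite _
  have : Finite (V₂ →+ V₂') := DFunLike.finite _
  apply Finite.of_injective (fun q : RHom x x' => (q.f₁, q.f₂))
  intro q q' h
  simp only [Prod.mk.injEq] at h
  exact RHom.ext h.1 h.2

/-- The kernel of a homomorphism. -/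
def RHom.ker {x : Ω → V₁ →+ V₂} {x' : Ω → V₁' →+ V₂'} (q : RHom x x') : Set V₁ × Set V₂ :=
  ({v | q.f₁ v = 0}, {w | q.f₂ w = 0})

/-- Transport of triples of homomorphisms. -/
def transport {x : Ω → V₁ →+ V₂} {x' : Ω → V₁' →+ V₂'} {Y₁ Y₂ : Type*} [AddCommGroup Y₁]
    [AddCommGroup Y₂] {y : Ω → Y₁ →+ Y₂}
    (E₁ : (Fin 3 → V₁) ≃+ (Fin 3 → V₁')) (E₂ : (Fin 3 → V₂) ≃+ (Fin 3 → V₂'))
    (hE : ∀ ω (v : Fin 3 → V₁), E₂ (fun j => x ω (v j)) = fun j => x' ω (E₁ v j))
    (f : Fin 3 → RHom y x) (i : Fin 3) : RHom y x' where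
  f₁ :=
    { toFun := fun v => E₁ (fun j => (f j).f₁ v) i
      map_zero' := by
        simp only [map_zero]
        have : E₁ (fun _ => 0) = 0 := map_zero E₁
        rw [this]; rfl
      map_add' := by
        intro v w
        simp only [map_add]
        have : E₁ (fun j => (f j).f₁ v + (f j).f₁ w) =
          E₁ (fun j => (f j).f₁ v) + E₁ (fun j => (f j).f₁ w) := map_add E₁ _ _
        rw [this]; rfl }
  f₂ :=
    { toFun := fun v => E₂ (fun j => (f j).f₂ v) i
      map_zero' := by
        simp only [map_zero]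
        have : E₂ (fun _ => 0) = 0 := map_zero E₂
        rw [this]; rfl
      map_add' := by
        intro v w
        simp only [map_add]
        have : E₂ (fun j => (f j).f₂ v + (f j).f₂ w) =
          E₂ (fun j => (f j).f₂ v) + E₂ (fun j => (f j).f₂ w) := map_add E₂ _ _
        rw [this]; rfl }
  comm := by
    intro ω v
    simp only [AddMonoidHom.coe_mk, ZeroHom.coe_mk]
    have h1 : (fun j => (f j).f₂ (y ω v)) = fun j => x ω ((f j).f₁ v) := by
      funext j
      exact (f j).comm ω v
    rw [h1, hE]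

/-- **Cancellation.** If the cubes of two finite systems of additive maps are isomorphic, there is
an injective homomorphism between the systems. -/
theorem exists_injective_of_cube [Finite V₁] [Finite V₂] [Finite V₁'] [Finite V₂']
    {x : Ω → V₁ →+ V₂} {x' : Ω → V₁' →+ V₂'}
    (E₁ : (Fin 3 → V₁) ≃+ (Fin 3 → V₁')) (E₂ : (Fin 3 → V₂) ≃+ (Fin 3 → V₂'))
    (hE : ∀ ω (v : Fin 3 → V₁), E₂ (fun j => x ω (v j)) = fun j => x' ω (E₁ v j)) :
    ∃ q : RHom x x', Function.Injective q.f₁ ∧ Function.Injective q.f₂ := by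
  classical
  have hE' : ∀ ω (v : Fin 3 → V₁'), E₂.symm (fun j => x' ω (v j)) = fun j => x ω (E₁.symm v j) := by
    intro ω v
    apply E₂.injective
    rw [E₂.apply_symm_apply, hE, E₁.apply_symm_apply]
  -- the bijection between triples
  let Ψ : (Fin 3 → RHom x x) ≃ (Fin 3 → RHom x x') :=
    { toFun := transport E₁ E₂ hE
      invFun := transport E₁.symm E₂.symm hE'
      left_inv := by
        intro f
        funext i
        apply RHom.ext
        · ext v
          change E₁.symm (fun j => E₁ (fun j => (f j).f₁ v) j) i = (f i).f₁ v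
          have : (fun j => E₁ (fun j => (f j).f₁ v) j) = E₁ (fun j => (f j).f₁ v) := rfl
          rw [this, E₁.symm_apply_apply]
        · ext v
          change E₂.symm (fun j => E₂ (fun j => (f j).f₂ v) j) i = (f i).f₂ v
          have : (fun j => E₂ (fun j => (f j).f₂ v) j) = E₂ (fun j => (f j).f₂ v) := rfl
          rw [this, E₂.symm_apply_apply]
      right_inv := by
        intro f
        funext i
        apply RHom.ext
        · ext v
          change E₁ (fun j => E₁.symm (fun j => (f j).f₁ v) j) i = (f i).f₁ v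
          have : (fun j => E₁.symm (fun j => (f j).f₁ v) j) = E₁.symm (fun j => (f j).f₁ v) := rfl
          rw [this, E₁.apply_symm_apply]
        · ext v
          change E₂ (fun j => E₂.symm (fun j => (f j).f₂ v) j) i = (f i).f₂ v
          have : (fun j => E₂.symm (fun j => (f j).f₂ v) j) = E₂.symm (fun j => (f j).f₂ v) := rfl
          rw [this, E₂.apply_symm_apply] }
  have hΨ : ∀ (L : Set V₁ × Set V₂) (f : Fin 3 → RHom x x),
      (∀ i, L ≤ (f i).ker) ↔ (∀ i, L ≤ (Ψ f i).ker) := by
    intro L f
    have e1 : ∀ v, (∀ i, (Ψ f i).f₁ v = 0) ↔ ∀ i, (f i).f₁ v = 0 := by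
      intro v
      change (∀ i, E₁ (fun j => (f j).f₁ v) i = 0) ↔ _
      constructor
      · intro h i
        have h1 : E₁ (fun j => (f j).f₁ v) = 0 := funext h
        have h2 : (fun j => (f j).f₁ v) = 0 := by
          rw [← E₁.symm_apply_apply (fun j => (f j).f₁ v), h1, map_zero]
        exact congrFun h2 i
      · intro h i
        have h2 : (fun j => (f j).f₁ v) = 0 := funext h
        rw [h2, map_zero]; rfl
    have e2 : ∀ v, (∀ i, (Ψ f i).f₂ v = 0) ↔ ∀ i, (f i).f₂ v = 0 := by
      intro v
      change (∀ i, E₂ (fun j => (f j).f₂ v) i = 0) ↔ _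
      constructor
      · intro h i
        have h1 : E₂ (fun j => (f j).f₂ v) = 0 := funext h
        have h2 : (fun j => (f j).f₂ v) = 0 := by
          rw [← E₂.symm_apply_apply (fun j => (f j).f₂ v), h1, map_zero]
        exact congrFun h2 i
      · intro h i
        have h2 : (fun j => (f j).f₂ v) = 0 := funext h
        rw [h2, map_zero]; rfl
    constructor
    · intro h i
      refine ⟨fun v hv => ?_, fun v hv => ?_⟩
      · exact (e1 v).2 (fun j => (h j).1 hv) i
      · exact (e2 v).2 (fun j => (h j).2 hv) i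
    · intro h i
      refine ⟨fun v hv => ?_, fun v hv => ?_⟩
      · exact (e1 v).1 (fun j => (h j).1 hv) i
      · exact (e2 v).1 (fun j => (h j).2 hv) i
  have hcard : ∀ L : Set V₁ × Set V₂,
      Nat.card {a : RHom x x // L ≤ a.ker} = Nat.card {b : RHom x x' // L ≤ b.ker} := by
    intro L
    have h1 : Nat.card {a : RHom x x // L ≤ a.ker} ^ 3 = Nat.card {b : RHom x x' // L ≤ b.ker} ^ 3 := by
      have h2 : Nat.card (Fin 3 → {a : RHom x x // L ≤ a.ker}) =
          Nat.card (Fin 3 → {b : RHom x x' // L ≤ b.ker}) := by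
        apply Nat.card_congr
        refine (Equiv.subtypePiEquivPi (p := fun _ a => L ≤ RHom.ker a)).symm.trans ?_
        refine Equiv.trans ?_ (Equiv.subtypePiEquivPi (p := fun _ a => L ≤ RHom.ker a))
        exact Ψ.subtypeEquiv (fun f => hΨ L f)
      rw [Nat.card_fun, Nat.card_fun] at h2
      simpa using h2
    exact Nat.pow_left_injective (by norm_num : 3 ≠ 0) h1
  have hfin := card_eq_of_card_ge (fun a : RHom x x => a.ker) (fun b : RHom x x' => b.ker) hcard
    ({0}, {0})
  have hid : Nonempty {a : RHom x x // a.ker = ({0}, {0})} := by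
    refine ⟨⟨⟨AddMonoidHom.id _, AddMonoidHom.id _, fun ω v => rfl⟩, ?_⟩⟩
    refine Prod.ext ?_ ?_ <;> · ext v; simp [RHom.ker]
  have hpos : 0 < Nat.card {a : RHom x x // a.ker = ({0}, {0})} := Nat.card_pos
  rw [hfin] at hpos
  obtain ⟨⟨q, hq⟩⟩ := (Nat.card_pos_iff.1 hpos).1
  refine ⟨q, ?_, ?_⟩
  · rw [injective_iff_map_eq_zero]
    intro v hv
    have h1 : v ∈ q.ker.1 := hv
    rw [hq] at h1
    exact h1
  · rw [injective_iff_map_eq_zero]
    intro v hv
    have h1 : v ∈ q.ker.2 := hv
    rw [hq] at h1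
    exact h1

end Pool.Agent.MPH
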