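import Pool.Agent.Helper21.MPH.Iso
import Pool.Agent.Helper21.MPH.Lovasz

/-!
# Encoding arbitrary linear spaces of matrices over the field with two elements
-/

set_option autoImplicit false

namespace Pool.Agent.MPH

open Matrix

/-- The matrix `diag(X, X, X)`. -/
def dg {a b : ℕ} : Matrix (Fin a) (Fin b) (ZMod 2) →ₗ[ZMod 2]
    Matrix (Fin 3 × Fin a) (Fin 3 × Fin b) (ZMod 2) where
  toFun X := fun s t => if s.1 = t.1 then X s.2 t.2 else 0
  map_add' X Y := by
    ext s t
    simp only [Matrix.add_apply]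
    split_ifs <;> simp
  map_smul' c X := by
    ext s t
    simp only [Matrix.smul_apply, RingHom.id_apply]
    split_ifs <;> simp

theorem dg_apply {a b : ℕ} (X : Matrix (Fin a) (Fin b) (ZMod 2)) (s : Fin 3 × Fin a)
    (t : Fin 3 × Fin b) : dg X s t = if s.1 = t.1 then X s.2 t.2 else 0 := rfl

theorem dg_injective {a b : ℕ} : Function.Injective (dg (a := a) (b := b)) := by
  intro X Y h
  ext i j
  have := congrFun (congrFun h (0, i)) (0, j)
  simpa [dg_apply] using this

theorem smul_vmv {I J : Type*} (c : ZMod 2) (φ : I → ZMod 2) (u : J → ZMod 2) :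
    vecMulVec (c • φ) u = c • vecMulVec φ u := by
  ext s t
  simp [vecMulVec_apply, mul_assoc]

theorem vmv_smul {I J : Type*} (c : ZMod 2) (φ : I → ZMod 2) (u : J → ZMod 2) :
    vecMulVec φ (c • u) = c • vecMulVec φ u := by
  ext s t
  simp [vecMulVec_apply, mul_left_comm]

/-- The bilinear map attached to a linear space `S` of matrices. -/
def bil {a b : ℕ} (S : Submodule (ZMod 2) (Matrix (Fin a) (Fin b) (ZMod 2))) :
    (Fin 3 × Fin a → ZMod 2) →ₗ[ZMod 2] (Fin 3 × Fin b → ZMod 2) →ₗ[ZMod 2]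
      (Matrix (Fin 3 × Fin a) (Fin 3 × Fin b) (ZMod 2) ⧸ S.map dg) :=
  LinearMap.mk₂ (ZMod 2) (fun φ u => (S.map dg).mkQ (vecMulVec φ u))
    (by intro φ ψ u; rw [add_vecMulVec, map_add])
    (by intro c φ u; rw [smul_vmv, map_smul])
    (by intro φ u v; rw [vecMulVec_add, map_add])
    (by intro c φ u; rw [vmv_smul, map_smul])

theorem bil_apply {a b : ℕ} (S : Submodule (ZMod 2) (Matrix (Fin a) (Fin b) (ZMod 2)))
    (φ : Fin 3 × Fin a → ZMod 2) (u : Fin 3 × Fin b → ZMod 2) :
    bil S φ u = (S.map dg).mkQ (vecMulVec φ u) := rfl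

theorem zmod_two_cases (x : ZMod 2) : x = 0 ∨ x = 1 := by
  revert x; decide

theorem exists_orth (g g' : Fin 3 → ZMod 2) :
    ∃ x : Fin 3 → ZMod 2, x ≠ 0 ∧ ∑ i, g i * x i = 0 ∧ ∑ i, g' i * x i = 0 := by
  revert g g'; decide

/-- The sum of two rank one matrices is not a nonzero `diag(X, X, X)`. -/
theorem eq_zero_of_rank {a b : ℕ} {X : Matrix (Fin a) (Fin b) (ZMod 2)}
    {φ ψ : Fin 3 × Fin a → ZMod 2} {u v : Fin 3 × Fin b → ZMod 2}
    (h : dg X = vecMulVec φ u + vecMulVec ψ v) : X = 0 := by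
  ext p q
  rcases zmod_two_cases (X p q) with h1 | h1
  · simpa using h1
  · exfalso
    obtain ⟨x, hx, h2, h3⟩ := exists_orth (fun j => u (j, q)) (fun j => v (j, q))
    apply hx
    funext i
    have h4 : ∀ j, (if i = j then (1 : ZMod 2) else 0) = φ (i, p) * u (j, q) + ψ (i, p) * v (j, q) := by
      intro j
      have h5 := congrFun (congrFun h (i, p)) (j, q)
      simp only [dg_apply, Matrix.add_apply, vecMulVec_apply, h1] at h5
      exact h5
    have h5 : x i = ∑ j, (if i = j then (1 : ZMod 2) else 0) * x j := by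
      simp
    rw [h5]
    simp only [h4, add_mul]
    rw [Finset.sum_add_distrib]
    have h6 : ∑ j, φ (i, p) * u (j, q) * x j = 0 := by
      simp only [mul_assoc]
      rw [← Finset.mul_sum, h2, mul_zero]
    have h7 : ∑ j, ψ (i, p) * v (j, q) * x j = 0 := by
      simp only [mul_assoc]
      rw [← Finset.mul_sum, h3, mul_zero]
    rw [h6, h7, add_zero]
    rfl

theorem sep_bil {a b : ℕ} (S : Submodule (ZMod 2) (Matrix (Fin a) (Fin b) (ZMod 2))) :
    Sep (bil S) := by
  have key : ∀ (φ ψ : Fin 3 × Fin a → ZMod 2) (u v : Fin 3 × Fin b → ZMod 2),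
      bil S φ u = bil S ψ v → vecMulVec φ u = vecMulVec ψ v := by
    intro φ ψ u v h
    rw [bil_apply, bil_apply] at h
    have h1 : (S.map dg).mkQ (vecMulVec φ u + vecMulVec ψ v) = 0 := by
      rw [map_add, h, addself]
    rw [Submodule.mkQ_apply, Submodule.Quotient.mk_eq_zero, Submodule.mem_map] at h1
    obtain ⟨X, -, hX⟩ := h1
    have h2 := eq_zero_of_rank hX
    rw [h2, map_zero] at hX
    exact eq_of_add_eq_zero' hX.symm
  constructor
  · intro φ u hu h
    have h1 : bil S φ u = bil S 0 0 := by rw [h, map_zero]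
    have h2 := key _ _ _ _ h1
    obtain ⟨t, ht⟩ := Function.ne_iff.1 hu
    funext s
    have h3 := congrFun (congrFun h2 s) t
    simp only [vecMulVec_apply, Pi.zero_apply, mul_zero, mul_eq_zero] at h3
    rcases h3 with h3 | h3
    · exact h3
    · exact absurd h3 ht
  · intro φ ψ u v hu hv huv h
    have h2 := key _ _ _ _ h
    have h3 : ∀ s t, φ s * u t = ψ s * v t := by
      intro s t
      have := congrFun (congrFun h2 s) t
      simpa [vecMulVec_apply] using this
    have h4 : φ = 0 := by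
      by_contra hφ
      obtain ⟨s, hs⟩ := Function.ne_iff.1 hφ
      have hs1 : φ s = 1 := by
        rcases zmod_two_cases (φ s) with h5 | h5
        · exact absurd h5 hs
        · exact h5
      rcases zmod_two_cases (ψ s) with h5 | h5
      · apply hu
        funext t
        have := h3 s t
        rw [hs1, h5, one_mul, zero_mul] at this
        exact this
      · apply huv
        funext t
        have := h3 s t
        rw [hs1, h5, one_mul, one_mul] at this
        exact this
    refine ⟨h4, ?_⟩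
    obtain ⟨t, ht⟩ := Function.ne_iff.1 hv
    funext s
    have h5 := h3 s t
    rw [h4] at h5
    simp only [Pi.zero_apply, zero_mul] at h5
    rcases mul_eq_zero.1 h5.symm with h6 | h6
    · exact h6
    · exact absurd h6 ht

/-- Equivalence of linear spaces of matrices: `S' = P S Q` with invertible `P` and `Q`. -/
def MatEquiv {a b a' b' : ℕ} (S : Submodule (ZMod 2) (Matrix (Fin a) (Fin b) (ZMod 2)))
    (S' : Submodule (ZMod 2) (Matrix (Fin a') (Fin b') (ZMod 2))) : Prop :=
  ∃ (P : Matrix (Fin a') (Fin a) (ZMod 2)) (P' : Matrix (Fin a) (Fin a') (ZMod 2))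
    (Q : Matrix (Fin b) (Fin b') (ZMod 2)) (Q' : Matrix (Fin b') (Fin b) (ZMod 2)),
    P * P' = 1 ∧ P' * P = 1 ∧ Q * Q' = 1 ∧ Q' * Q = 1 ∧ ∀ X, X ∈ S ↔ P * X * Q ∈ S'

end Pool.Agent.MPH
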