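import Pool.Agent.Helper21.MPH.EncodeIso

/-!
# Equivalent spaces of matrices give isomorphic colourings
-/

set_option autoImplicit false

namespace Pool.Agent.MPH

open Matrix

theorem dg_mul {a b c : ℕ} (X : Matrix (Fin a) (Fin b) (ZMod 2))
    (Y : Matrix (Fin b) (Fin c) (ZMod 2)) : dg X * dg Y = dg (X * Y) := by
  ext s t
  simp only [Matrix.mul_apply, dg_apply]
  rw [Fintype.sum_prod_type]
  rw [Finset.sum_eq_single s.1]
  · by_cases h : s.1 = t.1 <;> simp [h]
  · intro j _ hj
    simp [Ne.symm hj]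
  · simp

theorem dg_one {a : ℕ} : dg (1 : Matrix (Fin a) (Fin a) (ZMod 2)) = 1 := by
  ext s t
  simp only [dg_apply, Matrix.one_apply, Prod.ext_iff]
  by_cases h : s.1 = t.1 <;> by_cases h' : s.2 = t.2 <;> simp [h, h']

theorem exists_colIso_of_matEquiv {a b a' b' : ℕ}
    {S : Submodule (ZMod 2) (Matrix (Fin a) (Fin b) (ZMod 2))}
    {S' : Submodule (ZMod 2) (Matrix (Fin a') (Fin b') (ZMod 2))} (h : MatEquiv S S') :
    ∃ F : _ ≃ _, ColIso (bil S) (bil S') F := by
  obtain ⟨P, P', Q, Q', hPP', hP'P, hQQ', hQ'Q, hS⟩ := h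
  have h1 : dg P * dg P' = 1 := by rw [dg_mul, hPP', dg_one]
  have h2 : dg P' * dg P = 1 := by rw [dg_mul, hP'P, dg_one]
  have h3 : dg Q * dg Q' = 1 := by rw [dg_mul, hQQ', dg_one]
  have h4 : dg Q' * dg Q = 1 := by rw [dg_mul, hQ'Q, dg_one]
  let θ : (Fin 3 × Fin a → ZMod 2) ≃+ (Fin 3 × Fin a' → ZMod 2) :=
    { toFun := fun v => dg P *ᵥ v
      invFun := fun v => dg P' *ᵥ v
      left_inv := fun v => by
        change dg P' *ᵥ (dg P *ᵥ v) = v
        rw [mulVec_mulVec, h2, one_mulVec]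
      right_inv := fun v => by
        change dg P *ᵥ (dg P' *ᵥ v) = v
        rw [mulVec_mulVec, h1, one_mulVec]
      map_add' := fun v w => by rw [mulVec_add] }
  let f : (Fin 3 × Fin b → ZMod 2) ≃+ (Fin 3 × Fin b' → ZMod 2) :=
    { toFun := fun v => v ᵥ* dg Q
      invFun := fun v => v ᵥ* dg Q'
      left_inv := fun v => by
        change (v ᵥ* dg Q) ᵥ* dg Q' = v
        rw [vecMul_vecMul, h3, vecMul_one]
      right_inv := fun v => by
        change (v ᵥ* dg Q') ᵥ* dg Q = v
        rw [vecMul_vecMul, h4, vecMul_one]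
      map_add' := fun v w => by rw [add_vecMul] }
  let e : Matrix (Fin 3 × Fin a) (Fin 3 × Fin b) (ZMod 2) ≃ₗ[ZMod 2]
      Matrix (Fin 3 × Fin a') (Fin 3 × Fin b') (ZMod 2) :=
    { toFun := fun M => dg P * M * dg Q
      invFun := fun M => dg P' * M * dg Q'
      left_inv := fun M => by
        change dg P' * (dg P * M * dg Q) * dg Q' = M
        calc _ = (dg P' * dg P) * M * (dg Q * dg Q') := by simp only [Matrix.mul_assoc]
          _ = M := by rw [h2, h3, Matrix.one_mul, Matrix.mul_one]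
      right_inv := fun M => by
        change dg P * (dg P' * M * dg Q') * dg Q = M
        calc _ = (dg P * dg P') * M * (dg Q' * dg Q) := by simp only [Matrix.mul_assoc]
          _ = M := by rw [h1, h4, Matrix.one_mul, Matrix.mul_one]
      map_add' := fun M N => by rw [Matrix.mul_add, Matrix.add_mul]
      map_smul' := fun c M => by
        rw [Matrix.mul_smul, Matrix.smul_mul, RingHom.id_apply] }
  have hmap : (S.map dg).map (e : _ →ₗ[ZMod 2] _) = S'.map dg := by
    ext M
    simp only [Submodule.mem_map, LinearEquiv.coe_coe]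
    constructor
    · rintro ⟨_, ⟨X, hX, rfl⟩, rfl⟩
      refine ⟨P * X * Q, (hS X).1 hX, ?_⟩
      change dg (P * X * Q) = dg P * dg X * dg Q
      rw [dg_mul, dg_mul]
    · rintro ⟨Y, hY, rfl⟩
      refine ⟨dg (P' * Y * Q'), ⟨P' * Y * Q', ?_, rfl⟩, ?_⟩
      · rw [hS]
        have : P * (P' * Y * Q') * Q = Y := by
          calc _ = (P * P') * Y * (Q' * Q) := by simp only [Matrix.mul_assoc]
            _ = Y := by rw [hPP', hQ'Q, Matrix.one_mul, Matrix.mul_one]
        rw [this]
        exact hY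
      · change dg P * dg (P' * Y * Q') * dg Q = dg Y
        rw [dg_mul, dg_mul]
        congr 1
        calc _ = (P * P') * Y * (Q' * Q) := by simp only [Matrix.mul_assoc]
          _ = Y := by rw [hPP', hQ'Q, Matrix.one_mul, Matrix.mul_one]
  let g := Submodule.Quotient.equiv (S.map dg) (S'.map dg) e hmap
  refine ⟨_, colIso_of_equiv θ f g.toAddEquiv ?_⟩
  intro φ u
  change g ((S.map dg).mkQ (vecMulVec φ u)) = (S'.map dg).mkQ (vecMulVec (dg P *ᵥ φ) (u ᵥ* dg Q))
  rw [← vecMulVec_mul, ← mul_vecMulVec]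
  rfl

end Pool.Agent.MPH
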