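import Pool.Agent.Helper21.MPH.Encode

/-!
# Isomorphic colourings come from equivalent spaces of matrices
-/

set_option autoImplicit false

namespace Pool.Agent.MPH

open Matrix

theorem exists_other {b : ℕ} (hb : 0 < b) (u : Fin 3 × Fin b → ZMod 2) :
    ∃ u' : Fin 3 × Fin b → ZMod 2, u' ≠ 0 ∧ u' ≠ u := by
  classical
  let e : Fin 3 → (Fin 3 × Fin b → ZMod 2) := fun i => Pi.single (i, ⟨0, hb⟩) 1
  have h0 : e 0 ≠ e 1 := by
    intro h
    have := congrFun h (0, ⟨0, hb⟩)
    simp [e] at this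
  by_cases h : u = e 0
  · refine ⟨e 1, ?_, ?_⟩
    · intro h1
      have := congrFun h1 (1, ⟨0, hb⟩)
      simp [e] at this
    · rw [h]; exact h0.symm
  · refine ⟨e 0, ?_, fun h1 => h h1.symm⟩
    intro h1
    have := congrFun h1 (0, ⟨0, hb⟩)
    simp [e] at this

/-- The matrix of an additive map. -/
noncomputable def mt {I J : Type*} [Fintype I] [DecidableEq I] [Fintype J] [DecidableEq J]
    (f : (I → ZMod 2) →+ (J → ZMod 2)) : Matrix J I (ZMod 2) :=
  LinearMap.toMatrix' (AddMonoidHom.toZModLinearMap 2 f)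

theorem mt_mulVec {I J : Type*} [Fintype I] [DecidableEq I] [Fintype J] [DecidableEq J]
    (f : (I → ZMod 2) →+ (J → ZMod 2)) (x : I → ZMod 2) : mt f *ᵥ x = f x := by
  rw [mt, LinearMap.toMatrix'_mulVec]
  rfl

theorem mt_mul_mt {I J : Type*} [Fintype I] [DecidableEq I] [Fintype J] [DecidableEq J]
    (f : (I → ZMod 2) →+ (J → ZMod 2)) (g : (J → ZMod 2) →+ (I → ZMod 2))
    (h : ∀ x, g (f x) = x) : mt g * mt f = 1 := by
  apply Matrix.toLin'.injective
  ext1 i
  ext1
  simp only [toLin'_mul, LinearMap.coe_comp, Function.comp_apply, toLin'_apply, mt_mulVec, h,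
    toLin'_one, LinearMap.id_apply]

/-- Every matrix is a sum of rank one matrices, so two additive maps agreeing on these agree. -/
theorem addHom_ext {I J : Type*} [Fintype I] [DecidableEq I] [Fintype J] [DecidableEq J]
    {G : Type*} [AddCommGroup G] (f g : Matrix I J (ZMod 2) →+ G)
    (h : ∀ φ u, f (vecMulVec φ u) = g (vecMulVec φ u)) (M : Matrix I J (ZMod 2)) : f M = g M := by
  have h1 : M = ∑ i, ∑ j, vecMulVec (Pi.single i (M i j)) (Pi.single j (1 : ZMod 2)) := by
    ext s t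
    rw [Matrix.sum_apply]
    simp only [Matrix.sum_apply, vecMulVec_apply, Pi.single_apply]
    simp
  rw [h1]
  simp only [map_sum, h]

theorem dg_mulVec {a b : ℕ} (X : Matrix (Fin a) (Fin b) (ZMod 2))
    (v : Fin 3 → Fin b → ZMod 2) (i : Fin 3) (p : Fin a) :
    (dg X *ᵥ (fun t => v t.1 t.2)) (i, p) = (X *ᵥ v i) p := by
  simp only [mulVec, dotProduct, dg_apply]
  rw [Fintype.sum_prod_type]
  rw [Finset.sum_eq_single i]
  · simp
  · intro j _ hj
    simp [Ne.symm hj]
  · simp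

theorem matEquiv_of_colIso {a b a' b' : ℕ} (ha : 0 < a) (hb : 0 < b) (hb' : 0 < b')
    {S : Submodule (ZMod 2) (Matrix (Fin a) (Fin b) (ZMod 2))}
    {S' : Submodule (ZMod 2) (Matrix (Fin a') (Fin b') (ZMod 2))}
    {F : _ ≃ _} (hF : ColIso (bil S) (bil S') F) : MatEquiv S S' := by
  classical
  obtain ⟨θ, f, g, hg⟩ := equiv_of_colIso (sep_bil S) (sep_bil S') (exists_other hb)
    (exists_other hb') (by
      refine ⟨Pi.single (0, ⟨0, ha⟩) 1, fun h => ?_⟩
      have := congrFun h (0, ⟨0, ha⟩)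
      simp at this) hF
  -- dimensions
  have hab : a = a' := by
    have h1 := Nat.card_congr θ.toEquiv
    rw [Nat.card_fun, Nat.card_fun, Nat.card_prod, Nat.card_prod] at h1
    simp only [Nat.card_eq_fintype_card, ZMod.card, Fintype.card_fin] at h1
    have h2 := Nat.pow_right_injective (le_refl 2) h1
    omega
  have hbb : b = b' := by
    have h1 := Nat.card_congr f.toEquiv
    rw [Nat.card_fun, Nat.card_fun, Nat.card_prod, Nat.card_prod] at h1
    simp only [Nat.card_eq_fintype_card, ZMod.card, Fintype.card_fin] at h1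
    have h2 := Nat.pow_right_injective (le_refl 2) h1
    omega
  subst hab hbb
  set A := mt θ.toAddMonoidHom with hA
  set B := mt f.toAddMonoidHom with hB
  set A' := mt θ.symm.toAddMonoidHom with hA'
  set B' := mt f.symm.toAddMonoidHom with hB'
  have hAA' : A * A' = 1 := mt_mul_mt _ _ (fun x => θ.apply_symm_apply x)
  have hA'A : A' * A = 1 := mt_mul_mt _ _ (fun x => θ.symm_apply_apply x)
  have hBB' : B * B' = 1 := mt_mul_mt _ _ (fun x => f.apply_symm_apply x)
  have hB'B : B' * B = 1 := mt_mul_mt _ _ (fun x => f.symm_apply_apply x)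
  have hAθ : ∀ x, A *ᵥ x = θ x := fun x => mt_mulVec _ x
  have hBf : ∀ x, B *ᵥ x = f x := fun x => mt_mulVec _ x
  -- the induced map on matrices
  have hΛ : ∀ M, g ((S.map dg).mkQ M) = (S'.map dg).mkQ (A * M * Bᵀ) := by
    intro M
    refine addHom_ext (g.toAddMonoidHom.comp (S.map dg).mkQ.toAddMonoidHom)
      ((S'.map dg).mkQ.toAddMonoidHom.comp
        { toFun := fun M => A * M * Bᵀ
          map_zero' := by simp
          map_add' := by intro M N; rw [Matrix.mul_add, Matrix.add_mul] }) ?_ M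
    intro φ u
    change g ((S.map dg).mkQ (vecMulVec φ u)) = (S'.map dg).mkQ (A * vecMulVec φ u * Bᵀ)
    rw [mul_vecMulVec, vecMulVec_mul, vecMul_transpose, hAθ, hBf]
    exact hg φ u
  have hτ : ∀ X : S, ∃ Y ∈ S', dg Y = A * dg (X : Matrix (Fin a) (Fin b) (ZMod 2)) * Bᵀ := by
    intro X
    have h1 : (S.map dg).mkQ (dg (X : Matrix (Fin a) (Fin b) (ZMod 2))) = 0 := by
      rw [Submodule.mkQ_apply, Submodule.Quotient.mk_eq_zero]
      exact Submodule.mem_map_of_mem X.2
    have h2 := hΛ (dg (X : Matrix (Fin a) (Fin b) (ZMod 2)))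
    rw [h1, map_zero] at h2
    have h3 := (Submodule.Quotient.mk_eq_zero _).1 h2.symm
    rw [Submodule.mem_map] at h3
    exact h3
  choose τ hτS hτ using hτ
  have hτsurj : ∀ Y ∈ S', ∃ X : S, τ X = Y := by
    intro Y hY
    have h1 : g ((S.map dg).mkQ (A' * dg Y * B'ᵀ)) = 0 := by
      rw [hΛ]
      have h2 : A * (A' * dg Y * B'ᵀ) * Bᵀ = dg Y := by
        have h3 : B'ᵀ * Bᵀ = 1 := by rw [← Matrix.transpose_mul, hBB', Matrix.transpose_one]
        calc A * (A' * dg Y * B'ᵀ) * Bᵀ = (A * A') * dg Y * (B'ᵀ * Bᵀ) := by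
              simp only [Matrix.mul_assoc]
          _ = dg Y := by rw [hAA', h3, Matrix.one_mul, Matrix.mul_one]
      rw [h2, Submodule.mkQ_apply, Submodule.Quotient.mk_eq_zero]
      exact Submodule.mem_map_of_mem hY
    have h2 : (S.map dg).mkQ (A' * dg Y * B'ᵀ) = 0 := by
      rw [← map_zero g] at h1
      exact g.injective h1
    have h3 := (Submodule.Quotient.mk_eq_zero _).1 h2
    rw [Submodule.mem_map] at h3
    obtain ⟨X, hX, hXY⟩ := h3
    refine ⟨⟨X, hX⟩, ?_⟩
    apply dg_injective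
    rw [hτ]
    simp only
    rw [hXY]
    have h3 : B'ᵀ * Bᵀ = 1 := by rw [← Matrix.transpose_mul, hBB', Matrix.transpose_one]
    calc A * (A' * dg Y * B'ᵀ) * Bᵀ = (A * A') * dg Y * (B'ᵀ * Bᵀ) := by
          simp only [Matrix.mul_assoc]
      _ = dg Y := by rw [hAA', h3, Matrix.one_mul, Matrix.mul_one]
  -- the isomorphism of cubes
  let cur : ∀ c : ℕ, (Fin 3 → Fin c → ZMod 2) ≃+ (Fin 3 × Fin c → ZMod 2) := fun c =>
    { toFun := fun v t => v t.1 t.2
      invFun := fun v i p => v (i, p)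
      left_inv := fun v => rfl
      right_inv := fun v => rfl
      map_add' := fun v w => rfl }
  have hBt : Bᵀ * B'ᵀ = 1 := by rw [← Matrix.transpose_mul, hB'B, Matrix.transpose_one]
  have hBt' : B'ᵀ * Bᵀ = 1 := by rw [← Matrix.transpose_mul, hBB', Matrix.transpose_one]
  let E₀ : (Fin 3 × Fin b → ZMod 2) ≃+ (Fin 3 × Fin b → ZMod 2) :=
    { toFun := fun v => B'ᵀ *ᵥ v
      invFun := fun v => Bᵀ *ᵥ v
      left_inv := fun v => by
        change Bᵀ *ᵥ (B'ᵀ *ᵥ v) = v
        rw [mulVec_mulVec, hBt, one_mulVec]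
      right_inv := fun v => by
        change B'ᵀ *ᵥ (Bᵀ *ᵥ v) = v
        rw [mulVec_mulVec, hBt', one_mulVec]
      map_add' := fun v w => by rw [mulVec_add] }
  let E₁ : (Fin 3 → Fin b → ZMod 2) ≃+ (Fin 3 → Fin b → ZMod 2) :=
    ((cur b).trans E₀).trans (cur b).symm
  let E₂ : (Fin 3 → Fin a → ZMod 2) ≃+ (Fin 3 → Fin a → ZMod 2) :=
    ((cur a).trans θ).trans (cur a).symm
  let x : S → (Fin b → ZMod 2) →+ (Fin a → ZMod 2) := fun X =>
    { toFun := fun v => (X : Matrix (Fin a) (Fin b) (ZMod 2)) *ᵥ v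
      map_zero' := by rw [mulVec_zero]
      map_add' := fun v w => by rw [mulVec_add] }
  let x' : S → (Fin b → ZMod 2) →+ (Fin a → ZMod 2) := fun X =>
    { toFun := fun v => (τ X) *ᵥ v
      map_zero' := by rw [mulVec_zero]
      map_add' := fun v w => by rw [mulVec_add] }
  have hE : ∀ ω (v : Fin 3 → (Fin b → ZMod 2)), E₂ (fun j => x ω (v j)) =
      fun j => x' ω (E₁ v j) := by
    intro X v
    have h1 : (fun t : Fin 3 × Fin a => (((X : Matrix (Fin a) (Fin b) (ZMod 2)) *ᵥ v t.1) t.2)) =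
        dg (X : Matrix (Fin a) (Fin b) (ZMod 2)) *ᵥ (fun t => v t.1 t.2) := by
      funext t
      rw [← dg_mulVec]
    funext i
    funext p
    change θ (fun t : Fin 3 × Fin a => (((X : Matrix (Fin a) (Fin b) (ZMod 2)) *ᵥ v t.1) t.2)) (i, p)
      = (τ X *ᵥ (fun q => (B'ᵀ *ᵥ (fun t : Fin 3 × Fin b => v t.1 t.2)) (i, q))) p
    rw [h1, ← hAθ]
    have h2 := dg_mulVec (τ X) (fun i q => (B'ᵀ *ᵥ (fun t : Fin 3 × Fin b => v t.1 t.2)) (i, q)) i p
    rw [← h2]
    have h3 : (fun t : Fin 3 × Fin b => (fun i q => (B'ᵀ *ᵥ (fun t : Fin 3 × Fin b => v t.1 t.2))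
        (i, q)) t.1 t.2) = B'ᵀ *ᵥ (fun t : Fin 3 × Fin b => v t.1 t.2) := rfl
    have h4 : A * dg (X : Matrix (Fin a) (Fin b) (ZMod 2)) * Bᵀ * B'ᵀ =
        A * dg (X : Matrix (Fin a) (Fin b) (ZMod 2)) := by
      rw [Matrix.mul_assoc (A * _), hBt, Matrix.mul_one]
    rw [h3, hτ, mulVec_mulVec, mulVec_mulVec, h4]
  obtain ⟨q, hq1, hq2⟩ := exists_injective_of_cube E₁ E₂ hE
  have hb1 : Function.Bijective q.f₁ := Finite.injective_iff_bijective.1 hq1
  have hb2 : Function.Bijective q.f₂ := Finite.injective_iff_bijective.1 hq2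
  let e1 := AddEquiv.ofBijective q.f₁ hb1
  let e2 := AddEquiv.ofBijective q.f₂ hb2
  have hrel : ∀ X : S, mt e2.toAddMonoidHom * (X : Matrix (Fin a) (Fin b) (ZMod 2)) =
      τ X * mt e1.toAddMonoidHom := by
    intro X
    apply Matrix.toLin'.injective
    apply LinearMap.ext
    intro v
    rw [toLin'_apply, toLin'_apply, ← mulVec_mulVec, ← mulVec_mulVec, mt_mulVec, mt_mulVec]
    exact q.comm X v
  refine ⟨mt e2.toAddMonoidHom, mt e2.symm.toAddMonoidHom, mt e1.symm.toAddMonoidHom,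
    mt e1.toAddMonoidHom, mt_mul_mt _ _ (fun v => e2.apply_symm_apply v),
    mt_mul_mt _ _ (fun v => e2.symm_apply_apply v), mt_mul_mt _ _ (fun v => e1.symm_apply_apply v),
    mt_mul_mt _ _ (fun v => e1.apply_symm_apply v), ?_⟩
  have hrel' : ∀ X : S, mt e2.toAddMonoidHom * (X : Matrix (Fin a) (Fin b) (ZMod 2)) *
      mt e1.symm.toAddMonoidHom = τ X := by
    intro X
    rw [hrel, Matrix.mul_assoc, mt_mul_mt _ _ (fun v => e1.apply_symm_apply v), Matrix.mul_one]
  intro X
  constructor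
  · intro hX
    rw [hrel' ⟨X, hX⟩]
    exact hτS _
  · intro hX
    obtain ⟨Y, hY⟩ := hτsurj _ hX
    rw [← hrel' Y] at hY
    have h1 : mt e2.symm.toAddMonoidHom * (mt e2.toAddMonoidHom *
        (Y : Matrix (Fin a) (Fin b) (ZMod 2)) * mt e1.symm.toAddMonoidHom) *
          mt e1.toAddMonoidHom = mt e2.symm.toAddMonoidHom * (mt e2.toAddMonoidHom * X *
          mt e1.symm.toAddMonoidHom) * mt e1.toAddMonoidHom := by rw [hY]
    have h2 : ∀ Z : Matrix (Fin a) (Fin b) (ZMod 2), mt e2.symm.toAddMonoidHom *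
        (mt e2.toAddMonoidHom * Z * mt e1.symm.toAddMonoidHom) * mt e1.toAddMonoidHom = Z := by
      intro Z
      calc _ = (mt e2.symm.toAddMonoidHom * mt e2.toAddMonoidHom) * Z *
            (mt e1.symm.toAddMonoidHom * mt e1.toAddMonoidHom) := by
            simp only [Matrix.mul_assoc]
        _ = Z := by
          rw [mt_mul_mt _ _ (fun v => e2.symm_apply_apply v),
            mt_mul_mt _ _ (fun v => e1.symm_apply_apply v), Matrix.one_mul, Matrix.mul_one]
    rw [h2, h2] at h1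
    rw [← h1]
    exact Y.2

end Pool.Agent.MPH
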