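import Pool.Agent.Helper21.MPH.Basic

/-!
# Isomorphisms of colourings come from equivalences of bilinear maps
-/

set_option autoImplicit false

namespace Pool.Agent.MPH

variable {Φ U W : Type*} [AddCommGroup Φ] [Module (ZMod 2) Φ] [AddCommGroup U] [Module (ZMod 2) U]
  [AddCommGroup W] [Module (ZMod 2) W]
variable {Φ' U' W' : Type*} [AddCommGroup Φ'] [Module (ZMod 2) Φ'] [AddCommGroup U']
  [Module (ZMod 2) U'] [AddCommGroup W'] [Module (ZMod 2) W']

/-- `F` preserves and reflects equality of colours. -/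
def ColIso (β : Φ →ₗ[ZMod 2] U →ₗ[ZMod 2] W) (β' : Φ' →ₗ[ZMod 2] U' →ₗ[ZMod 2] W')
    (F : (U × W) ≃ (U' × W')) : Prop :=
  ∀ x y z t, col β x y = col β z t ↔ col β' (F x) (F y) = col β' (F z) (F t)

variable {β : Φ →ₗ[ZMod 2] U →ₗ[ZMod 2] W} {β' : Φ' →ₗ[ZMod 2] U' →ₗ[ZMod 2] W'}
  {F : (U × W) ≃ (U' × W')}

theorem ColIso.symm (h : ColIso β β' F) : ColIso β' β F.symm := by
  intro x y z t
  rw [h (F.symm x) (F.symm y) (F.symm z) (F.symm t)]
  simp

theorem ColIso.translate (h : ColIso β β' F) (a : U' × W') :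
    ColIso β β' (F.trans (Equiv.addLeft a)) := by
  intro x y z t
  rw [h x y z t]
  simp only [Equiv.trans_apply, Equiv.coe_addLeft]
  rw [col_translate, col_translate]

theorem ColIso.conj (h : ColIso β β' F) {f : (U × W) ≃ (U × W)} (hf : ColAut β f) :
    ColAut β' ((F.symm.trans f).trans F) := by
  intro x y
  simp only [Equiv.trans_apply]
  have h1 := (h (f (F.symm x)) (f (F.symm y)) (F.symm x) (F.symm y)).1 (hf _ _)
  rw [h1, Equiv.apply_symm_apply, Equiv.apply_symm_apply]

theorem colAut_translate (v : U × W) : ColAut β (Equiv.addLeft v) := by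
  intro x y
  simp only [Equiv.coe_addLeft]
  exact col_translate v x y

theorem colAut_shear (φ : Φ) : ColAut β (shear β φ) := fun x y => col_shear φ x y

/-- A colour isomorphism fixing zero is additive. -/
theorem ColIso.add (hβ' : Sep β') (hU' : ∀ a : U', ∃ a', a' ≠ 0 ∧ a' ≠ a) (h : ColIso β β' F)
    (h0 : F 0 = 0) (x y : U × W) : F (x + y) = F x + F y := by
  have h1 : ∀ v, ∃ φ, ∀ x, F (v + x) = F v + shear β' φ (F x) := by
    intro v
    have h2 : ColAut β' (((F.symm.trans (Equiv.addLeft v)).trans F).trans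
        (Equiv.addLeft (F v))) := by
      intro x y
      have h3 := h.conj (colAut_translate (β := β) v)
      have h4 := h3 x y
      simp only [Equiv.trans_apply, Equiv.coe_addLeft] at h4 ⊢
      rw [col_translate, h4]
    obtain ⟨φ, hφ⟩ := h2.eq_shear hβ' (by
      have h5 : F.symm 0 = 0 := by rw [← h0, Equiv.symm_apply_apply]
      simp only [Equiv.trans_apply, Equiv.coe_addLeft, h5, add_zero]
      exact addself _)
    refine ⟨φ, fun x => ?_⟩
    have h6 := hφ (F x)
    simp only [Equiv.trans_apply, Equiv.coe_addLeft, Equiv.symm_apply_apply] at h6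
    rw [← h6, add_cancel_two]
  choose s hs using h1
  have h2 : ∀ v v', β' (s v) (F v').1 = β' (s v') (F v).1 := by
    intro v v'
    have h3 : F v + shear β' (s v) (F v') = F v' + shear β' (s v') (F v) := by
      rw [← hs v v', ← hs v' v, add_comm]
    have h4 := congrArg Prod.snd h3
    simp only [Prod.snd_add, shear, Equiv.coe_fn_mk] at h4
    have h5 : (F v).2 + (F v').2 + β' (s v) (F v').1 = (F v).2 + (F v').2 + β' (s v') (F v).1 := by
      rw [add_assoc, h4]
      abel
    exact add_left_cancel h5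
  have h3 : ∀ v, s v = 0 := by
    intro v
    obtain ⟨a', ha', hne⟩ := hU' (F v).1
    have h4 := h2 v (F.symm (a', 0))
    rw [Equiv.apply_symm_apply] at h4
    by_cases hv : (F v).1 = 0
    · rw [hv, map_zero] at h4
      exact hβ'.inj _ _ ha' h4
    · exact (hβ'.sep _ _ _ _ ha' hv hne h4).1
  rw [hs x y, h3 x]
  congr 1
  refine Prod.ext rfl ?_
  simp [shear]

/-- Conjugates of shears. -/
theorem ColIso.conj_shear (hβ' : Sep β') (h : ColIso β β' F) (h0 : F 0 = 0) (φ : Φ) :
    ∃ φ', ∀ x, F (shear β φ x) = shear β' φ' (F x) := by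
  have h1 := h.conj (colAut_shear (β := β) φ)
  obtain ⟨φ', hφ'⟩ := h1.eq_shear hβ' (by
    have h5 : F.symm 0 = 0 := by rw [← h0, Equiv.symm_apply_apply]
    simp only [Equiv.trans_apply, h5, shear_zero, h0])
  refine ⟨φ', fun x => ?_⟩
  have h6 := hφ' (F x)
  simpa only [Equiv.trans_apply, Equiv.symm_apply_apply] using h6

theorem shear_injective (hβ : Sep β) (hU : ∃ u : U, u ≠ 0) {φ ψ : Φ}
    (h : ∀ x, shear β φ x = shear β ψ x) : φ = ψ := by
  obtain ⟨u, hu⟩ := hU
  have h1 := congrArg Prod.snd (h (u, 0))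
  simp only [shear, Equiv.coe_fn_mk, zero_add] at h1
  apply eq_of_add_eq_zero'
  apply hβ.inj _ _ hu
  rw [LinearMap.map_add₂, h1, addself]

/-- **Isomorphic colourings come from equivalent bilinear maps.** -/
theorem equiv_of_colIso (hβ : Sep β) (hβ' : Sep β') (hU : ∀ a : U, ∃ a', a' ≠ 0 ∧ a' ≠ a)
    (hU' : ∀ a : U', ∃ a', a' ≠ 0 ∧ a' ≠ a) (hΦ : ∃ φ : Φ, φ ≠ 0) (h : ColIso β β' F) :
    ∃ (θ : Φ ≃+ Φ') (f : U ≃+ U') (g : W ≃+ W'), ∀ φ u, g (β φ u) = β' (θ φ) (f u) := by
  wlog h0 : F 0 = 0 generalizing F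
  · exact this (h.translate (F 0)) (by simp [addself])
  have hadd := h.add hβ' hU' h0
  have h' := h.symm
  have h0' : F.symm 0 = 0 := by rw [← h0, Equiv.symm_apply_apply]
  have hadd' := h'.add hβ hU h0'
  have hUn : ∃ u : U, u ≠ 0 := by
    obtain ⟨a, ha, -⟩ := hU 0
    exact ⟨a, ha⟩
  have hUn' : ∃ u : U', u ≠ 0 := by
    obtain ⟨a, ha, -⟩ := hU' 0
    exact ⟨a, ha⟩
  choose θ hθ using h.conj_shear hβ' h0
  choose θ' hθ' using h'.conj_shear hβ h0'
  have hinv : ∀ φ, θ' (θ φ) = φ := by
    intro φ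
    apply shear_injective hβ hUn
    intro x
    have h1 := hθ' (θ φ) (F x)
    rw [← hθ φ x] at h1
    simpa using h1.symm
  have hinv' : ∀ φ, θ (θ' φ) = φ := by
    intro φ
    apply shear_injective hβ' hUn'
    intro x
    have h1 := hθ (θ' φ) (F.symm x)
    rw [← hθ' φ x] at h1
    simpa using h1.symm
  have hθadd : ∀ φ ψ, θ (φ + ψ) = θ φ + θ ψ := by
    intro φ ψ
    apply shear_injective hβ' hUn'
    intro x
    have h1 : ∀ z, shear β (φ + ψ) z = shear β φ (shear β ψ z) := by
      intro z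
      refine Prod.ext rfl ?_
      simp only [shear, Equiv.coe_fn_mk, LinearMap.map_add₂]
      abel
    have h2 : ∀ z, shear β' (θ φ + θ ψ) z = shear β' (θ φ) (shear β' (θ ψ) z) := by
      intro z
      refine Prod.ext rfl ?_
      simp only [shear, Equiv.coe_fn_mk, LinearMap.map_add₂]
      abel
    obtain ⟨z, rfl⟩ := F.surjective x
    rw [← hθ, h1, h2, hθ, hθ]
  -- points over zero
  have hfib : ∀ w, (F (0, w)).1 = 0 := by
    intro w
    obtain ⟨φ, hφ⟩ := hΦ
    by_contra hne
    have h1 : ∀ ψ, shear β ψ ((0, w) : U × W) = (0, w) := by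
      intro ψ
      refine Prod.ext rfl ?_
      simp [shear]
    have h2 := hθ φ (0, w)
    rw [h1] at h2
    have h3 := congrArg Prod.snd h2
    simp only [shear, Equiv.coe_fn_mk] at h3
    have h4 : β' (θ φ) (F (0, w)).1 = 0 := by
      have := add_left_cancel (a := (F (0, w)).2) (b := β' (θ φ) (F (0, w)).1) (c := 0)
        (by rw [← h3, add_zero])
      exact this
    have h5 := hβ'.inj _ _ hne h4
    have h6 : θ 0 = 0 := by
      have := hθadd 0 0
      rw [add_zero] at this
      have h7 := addself (θ 0)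
      rw [← this] at h7
      exact h7
    apply hφ
    rw [← hinv φ, h5, ← h6, hinv]
  have hΦ' : ∃ φ : Φ', φ ≠ 0 := by
    obtain ⟨φ, hφ⟩ := hΦ
    refine ⟨θ φ, fun h1 => hφ ?_⟩
    have h6 : θ 0 = 0 := by
      have := hθadd 0 0
      rw [add_zero] at this
      have h7 := addself (θ 0)
      rw [← this] at h7
      exact h7
    rw [← hinv φ, h1, ← h6, hinv]
  have hfib' : ∀ w, (F.symm (0, w)).1 = 0 := by
    intro w
    obtain ⟨φ, hφ⟩ := hΦ'
    by_contra hne
    have h1 : ∀ ψ, shear β' ψ ((0, w) : U' × W') = (0, w) := by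
      intro ψ
      refine Prod.ext rfl ?_
      simp [shear]
    have h2 := hθ' φ (0, w)
    rw [h1] at h2
    have h3 := congrArg Prod.snd h2
    simp only [shear, Equiv.coe_fn_mk] at h3
    have h4 : β (θ' φ) (F.symm (0, w)).1 = 0 := by
      have := add_left_cancel (a := (F.symm (0, w)).2) (b := β (θ' φ) (F.symm (0, w)).1) (c := 0)
        (by rw [← h3, add_zero])
      exact this
    have h5 := hβ.inj _ _ hne h4
    have h6 : θ 0 = 0 := by
      have := hθadd 0 0
      rw [add_zero] at this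
      have h7 := addself (θ 0)
      rw [← this] at h7
      exact h7
    apply hφ
    rw [← hinv' φ, h5, h6]
  have hF0 : ∀ w, F (0, w) = (0, (F (0, w)).2) := fun w => Prod.ext (hfib w) rfl
  have hF0' : ∀ w, F.symm (0, w) = (0, (F.symm (0, w)).2) := fun w => Prod.ext (hfib' w) rfl
  have split : ∀ (u : U) (w : W), ((u, w) : U × W) = (u, 0) + (0, w) := by
    intro u w; simp
  have split' : ∀ (u : U') (w : W'), ((u, w) : U' × W') = (u, 0) + (0, w) := by
    intro u w; simp
  let g : W ≃+ W' :=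
    { toFun := fun w => (F (0, w)).2
      invFun := fun w => (F.symm (0, w)).2
      left_inv := by
        intro w
        simp only
        rw [← hF0, Equiv.symm_apply_apply]
      right_inv := by
        intro w
        simp only
        rw [← hF0', Equiv.apply_symm_apply]
      map_add' := by
        intro w w'
        have : ((0, w + w') : U × W) = (0, w) + (0, w') := by simp
        rw [this, hadd, Prod.snd_add] }
  have hf1 : ∀ u w, (F (u, w)).1 = (F (u, 0)).1 := by
    intro u w
    rw [split, hadd, Prod.fst_add, hfib, add_zero]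
  have hf1' : ∀ u w, (F.symm (u, w)).1 = (F.symm (u, 0)).1 := by
    intro u w
    rw [split', hadd', Prod.fst_add, hfib', add_zero]
  let f : U ≃+ U' :=
    { toFun := fun u => (F (u, 0)).1
      invFun := fun u => (F.symm (u, 0)).1
      left_inv := by
        intro u
        simp only
        rw [← hf1' _ (F (u, 0)).2]
        simp
      right_inv := by
        intro u
        simp only
        rw [← hf1 _ (F.symm (u, 0)).2]
        simp
      map_add' := by
        intro u u'
        have : ((u + u', 0) : U × W) = (u, 0) + (u', 0) := by simp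
        rw [this, hadd, Prod.fst_add] }
  refine ⟨{ toFun := θ, invFun := θ', left_inv := hinv, right_inv := hinv', map_add' := hθadd },
    f, g, ?_⟩
  intro φ u
  change (F (0, β φ u)).2 = β' (θ φ) (F (u, 0)).1
  have h1 := hθ φ (u, 0)
  have h2 : shear β φ ((u, 0) : U × W) = (u, 0) + (0, β φ u) := by
    refine Prod.ext ?_ ?_ <;> simp [shear]
  rw [h2, hadd] at h1
  have h3 := congrArg Prod.snd h1
  simp only [shear, Equiv.coe_fn_mk, Prod.snd_add] at h3
  exact add_left_cancel h3

/-- Equivalent bilinear maps give isomorphic colourings. -/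
theorem colIso_of_equiv (θ : Φ ≃+ Φ') (f : U ≃+ U') (g : W ≃+ W')
    (h : ∀ φ u, g (β φ u) = β' (θ φ) (f u)) :
    ColIso β β' (Equiv.prodCongr f.toEquiv g.toEquiv) := by
  intro x y z t
  rw [col_eq_iff, col_eq_iff]
  simp only [Equiv.prodCongr_apply, Prod.map_fst, Prod.map_snd, AddEquiv.toEquiv_eq_coe,
    EquivLike.coe_coe]
  rw [← map_add, ← map_add, ← map_add, ← map_add, f.injective.eq_iff]
  apply and_congr_right
  intro _
  constructor
  · rintro ⟨φ, hφ⟩
    refine ⟨θ φ, ?_⟩
    rw [← h, ← map_add, hφ]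
  · rintro ⟨φ, hφ⟩
    refine ⟨θ.symm φ, ?_⟩
    apply g.injective
    rw [hφ, map_add g (x.2 + y.2), h, θ.apply_symm_apply]

end Pool.Agent.MPH
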